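import Pool.Agent.Helper80K4.Core

/-!
# Improving paths: definitions and values of lists of bits
-/

namespace Pool.Agent.Helper80K6

open Pool.Agent.NPC Pool.Agent.Helper80K4

/-- `y` is obtained from `x` by changing one of the `n` bits, and its cost is smaller. -/
def Improves (n : ℕ) (F : List Bool → List Bool) (x y : List Bool) : Prop :=
  ∃ i < n, y = x.modify i not ∧ cost (F y) < cost (F x)

/-- Some sequence of fewer than `T` improving changes of single bits leads from `x` to a local
minimum. -/
def Short (n : ℕ) (F : List Bool → List Bool) (T : ℕ) (x : List Bool) : Prop :=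
  ∃ (s : ℕ) (f : ℕ → List Bool), s < T ∧ f 0 = x ∧
    (∀ j < s, Improves n F (f j) (f (j + 1))) ∧ IsLocalMin n F (f s)

/-! ### Values -/

/-- the value of a list of bits, the most significant bit first -/
def val (cl : List Cj) (x : List Bool) : ℕ := mv (cl.map (conj x))

theorem val_append (P Q : List Cj) (x : List Bool) :
    val (P ++ Q) x = val P x * 2 ^ Q.length + val Q x := by
  unfold val
  rw [List.map_append, mv_append, List.length_map]

theorem val_lt (P : List Cj) (x : List Bool) : val P x < 2 ^ P.length := by
  have := mv_lt (P.map (conj x))
  rwa [List.length_map] at this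

theorem val_append_lt {P Q : List Cj} {x y : List Bool} :
    val (P ++ Q) x < val (P ++ Q) y ↔ val P x < val P y ∨ (val P x = val P y ∧ val Q x < val Q y) := by
  rw [val_append, val_append]
  have h1 := val_lt Q x
  have h2 := val_lt Q y
  rcases lt_trichotomy (val P x) (val P y) with h | h | h
  · have := Nat.mul_le_mul_right (2 ^ Q.length) (Nat.succ_le_of_lt h)
    rw [Nat.succ_mul] at this
    constructor
    · intro _; exact Or.inl h
    · intro _; omega
  · rw [h]
    constructor
    · intro h3; exact Or.inr ⟨rfl, by omega⟩
    · rintro (h3 | ⟨_, h3⟩)
      · exact absurd h3 (lt_irrefl _)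
      · omega
  · have := Nat.mul_le_mul_right (2 ^ Q.length) (Nat.succ_le_of_lt h)
    rw [Nat.succ_mul] at this
    constructor
    · intro h3; omega
    · rintro (h3 | ⟨h3, _⟩)
      · omega
      · omega

theorem val_cons_lt {c : Cj} {Q : List Cj} {x y : List Bool} :
    val (c :: Q) x < val (c :: Q) y ↔ (conj x c).toNat < (conj y c).toNat ∨
      (conj x c = conj y c ∧ val Q x < val Q y) := by
  rw [← List.singleton_append, val_append_lt]
  have e : ∀ z, val [c] z = (conj z c).toNat := by
    intro z
    simp [val, mv]
  rw [e, e]
  refine or_congr_right (and_congr_left fun _ => ?_)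
  cases conj x c <;> cases conj y c <;> simp

theorem val_congr {P : List Cj} {x y : List Bool} (h : ∀ c ∈ P, conj x c = conj y c) :
    val P x = val P y := by
  unfold val
  rw [List.map_congr_left h]

theorem val_mono {P : List Cj} {x y : List Bool} (h : ∀ c ∈ P, conj x c = true → conj y c = true) :
    val P x ≤ val P y := mv_mono _ _ P h

theorem val_strict {P : List Cj} {x y : List Bool}
    (h : ∀ c ∈ P, conj x c = true → conj y c = true) {c : Cj} (hc : c ∈ P)
    (h1 : conj x c = false) (h2 : conj y c = true) : val P x < val P y := by
  obtain ⟨P1, P2, rfl⟩ := List.append_of_mem hc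
  exact improve_one _ _ P1 P2 c (fun t ht => h t (List.mem_append_left _ ht)) h1 h2

/-! ### Lists -/

theorem modify_append_lt {W m : List Bool} {i : ℕ} (h : i < W.length) :
    (W ++ m).modify i not = W.modify i not ++ m := by
  refine List.ext_getElem? fun j => ?_
  rw [List.getElem?_modify]
  by_cases hj : j < W.length
  · rw [List.getElem?_append_left hj, List.getElem?_append_left (by simpa using hj),
      List.getElem?_modify]
  · rw [List.getElem?_append_right (by omega), List.getElem?_append_right (by simp; omega),
      List.length_modify]
    simp [show i ≠ j by omega]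

theorem modify_append_ge {W m : List Bool} {i : ℕ} (h : W.length ≤ i) :
    (W ++ m).modify i not = W ++ m.modify (i - W.length) not := by
  refine List.ext_getElem? fun j => ?_
  rw [List.getElem?_modify]
  by_cases hj : j < W.length
  · rw [List.getElem?_append_left hj, List.getElem?_append_left hj]
    simp [show i ≠ j by omega]
  · rw [List.getElem?_append_right (by omega), List.getElem?_append_right (by omega),
      List.getElem?_modify]
    by_cases hij : i = j
    · simp [hij]
    · simp [hij, show i - W.length ≠ j - W.length by omega]

theorem conj_left {W m : List Bool} {c : Cj} (h : ∀ p ∈ c, p.1 < W.length) :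
    conj (W ++ m) c = conj W c := by
  rw [Bool.eq_iff_iff]
  unfold conj
  rw [List.all_eq_true, List.all_eq_true]
  refine forall₂_congr fun p hp => ?_
  rw [List.getD_append _ _ _ _ (h p hp)]

/-- the clause with all variables moved by `n` -/
def shift (n : ℕ) (c : Cj) : Cj := c.map fun p => (n + p.1, p.2)

theorem conj_shift {W m : List Bool} (c : Cj) : conj (W ++ m) (shift W.length c) = conj m c := by
  rw [Bool.eq_iff_iff]
  unfold conj shift
  rw [List.all_map, List.all_eq_true, List.all_eq_true]
  refine forall₂_congr fun p _ => ?_
  simp only [Function.comp_apply]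
  rw [List.getD_append_right _ _ _ _ (by omega), Nat.add_sub_cancel_left]

theorem val_shift {W m : List Bool} (P : List Cj) :
    val (P.map (shift W.length)) (W ++ m) = val P m := by
  unfold val
  rw [List.map_map]
  congr 1
  exact List.map_congr_left fun c _ => conj_shift c

theorem val_left {W m : List Bool} {P : List Cj} (h : ∀ c ∈ P, ∀ p ∈ c, p.1 < W.length) :
    val P (W ++ m) = val P W := by
  unfold val
  congr 1
  exact List.map_congr_left fun c hc => conj_left (h c hc)

/-! ### Locks -/

/-- the bits which are 1 if the variable `v` has the value `b` and the first `n` variables do not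
agree with `A` -/
def lk (v : ℕ) (b : Bool) (n : ℕ) (A : List Bool) : List Cj :=
  (List.range n).map fun w => [(v, b), (w, !(A.getD w false))]

/-- the difference of `W` and `A`, as a number -/
def dist (n : ℕ) (A W : List Bool) : ℕ :=
  mv ((List.range n).map fun w => W.getD w false == !(A.getD w false))

theorem val_lk {v : ℕ} {b : Bool} {n : ℕ} {A x : List Bool} :
    val (lk v b n A) x = if x.getD v false = b then dist n A x else 0 := by
  unfold val lk
  rw [List.map_map]
  split_ifs with h
  · unfold dist
    congr 1
    refine List.map_congr_left fun w _ => ?_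
    simp only [Function.comp_apply, conj, List.all_cons, List.all_nil, Bool.and_true]
    rw [h]
    simp
  · have h2 : ∀ l : List ℕ, mv (l.map ((conj x) ∘ fun w => [(v, b), (w, !(A.getD w false))]))
        = 0 := by
      intro l
      induction l with
      | nil => rfl
      | cons a l ih =>
        rw [List.map_cons, mv, ih]
        simp only [Function.comp_apply, conj, List.all_cons, List.all_nil, Bool.and_true]
        rw [beq_eq_false_iff_ne.2 h]
        simp
    exact h2 _

theorem mv_eq_zero {l : List Bool} : mv l = 0 ↔ ∀ b ∈ l, b = false := by
  induction l with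
  | nil => simp [mv]
  | cons b l ih =>
    rw [mv]
    cases b
    · simp [ih]
    · simp

theorem dist_eq_zero {n : ℕ} {A W : List Bool} (hA : A.length = n) (hW : W.length = n) :
    dist n A W = 0 ↔ W = A := by
  unfold dist
  rw [mv_eq_zero]
  constructor
  · intro h
    refine List.ext_getElem (by omega) fun i h1 h2 => ?_
    have := h _ (List.mem_map.2 ⟨i, List.mem_range.2 (by omega), rfl⟩)
    rw [List.getD_eq_getElem _ _ h1, List.getD_eq_getElem _ _ h2] at this
    revert this
    cases W[i] <;> cases A[i] <;> simp
  · rintro rfl b hb
    obtain ⟨i, _, rfl⟩ := List.mem_map.1 hb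
    cases W.getD i false <;> rfl

theorem dist_append {n : ℕ} {A W m : List Bool} (hW : W.length = n) :
    dist n A (W ++ m) = dist n A W := by
  unfold dist
  congr 1
  refine List.map_congr_left fun w hw => ?_
  rw [List.getD_append _ _ _ _ (by have := List.mem_range.1 hw; omega)]

/-- a change of a wrong bit decreases the distance -/
theorem dist_lt {n : ℕ} {A W : List Bool} {i : ℕ} (hi : i < n) (hW : W.length = n)
    (h : W.getD i false ≠ A.getD i false) : dist n A (W.modify i not) < dist n A W := by
  have e1 : dist n A (W.modify i not) =
      val ((List.range n).map fun w => [(w, !(A.getD w false))]) (W.modify i not) := by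
    unfold dist val
    rw [List.map_map]
    congr 1
    refine List.map_congr_left fun w _ => ?_
    simp [conj]
  have e2 : dist n A W = val ((List.range n).map fun w => [(w, !(A.getD w false))]) W := by
    unfold dist val
    rw [List.map_map]
    congr 1
    refine List.map_congr_left fun w _ => ?_
    simp [conj]
  rw [e1, e2]
  refine val_strict ?_ (List.mem_map.2 ⟨i, List.mem_range.2 hi, rfl⟩) ?_ ?_
  · intro c hc
    obtain ⟨w, _, rfl⟩ := List.mem_map.1 hc
    simp only [conj, List.all_cons, List.all_nil, Bool.and_true, beq_iff_eq]
    rw [getD_modify (by omega)]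
    split_ifs with h1
    · intro h2
      rw [h1] at h2 ⊢
      exact absurd (by simpa using h2) h
    · exact id
  · simp only [conj, List.all_cons, List.all_nil, Bool.and_true]
    rw [getD_modify (by omega), if_pos rfl]
    revert h
    cases W.getD i false <;> cases A.getD i false <;> simp
  · simp only [conj, List.all_cons, List.all_nil, Bool.and_true]
    revert h
    cases W.getD i false <;> cases A.getD i false <;> simp

theorem exists_wrong {n : ℕ} {A W : List Bool} (hA : A.length = n) (hW : W.length = n)
    (h : W ≠ A) : ∃ i < n, W.getD i false ≠ A.getD i false := by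
  by_contra hcon
  push Not at hcon
  apply h
  refine List.ext_getElem (by omega) fun i h1 h2 => ?_
  have := hcon i (by omega)
  rwa [List.getD_eq_getElem _ _ h1, List.getD_eq_getElem _ _ h2] at this

theorem modify_ne {W : List Bool} {i : ℕ} (hi : i < W.length) : W.modify i not ≠ W := by
  intro h
  have := congrArg (fun l => l.getD i false) h
  rw [getD_modify hi, if_pos rfl] at this
  revert this
  cases W.getD i false <;> simp

end Pool.Agent.Helper80K6
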