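import Pool.Agent.Helper80K6.Land2

/-!
# Cells which force a complete run from almost all vectors
-/

namespace Pool.Agent.Helper80K6

open Pool.Agent.NPC Pool.Agent.Helper80K4

theorem conj_one (x : List Bool) (a : ℕ) (u : Bool) : conj x [(a, u)] = (x.getD a false == u) := by
  simp [conj]

theorem conj_two (x : List Bool) (a b : ℕ) (u v : Bool) :
    conj x [(a, u), (b, v)] = ((x.getD a false == u) && (x.getD b false == v)) := by
  simp [conj]

section seg

variable {s s' : List Bool} {t n : ℕ}

theorem le_app {P Q : List Cj} (h1 : val P s ≤ val P s') (h2 : val Q s < val Q s') :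
    val (P ++ Q) s < val (P ++ Q) s' := by
  rw [val_append_lt]
  omega

theorem lt_app {P Q : List Cj} (h1 : val P s < val P s') :
    val (P ++ Q) s < val (P ++ Q) s' := by
  rw [val_append_lt]
  exact Or.inl h1

theorem seg_le {F : ℕ → Cj} (h : ∀ j < t, conj s (F j) = true → conj s' (F j) = true) :
    val ((List.range t).map F) s ≤ val ((List.range t).map F) s' := by
  refine val_mono fun c hc => ?_
  obtain ⟨j, hj, rfl⟩ := List.mem_map.1 hc
  exact h j (List.mem_range.1 hj)

theorem seg_lt {F : ℕ → Cj} (h : ∀ j < t, conj s (F j) = true → conj s' (F j) = true) {i : ℕ}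
    (hi : i < t) (h1 : conj s (F i) = false) (h2 : conj s' (F i) = true) :
    val ((List.range t).map F) s < val ((List.range t).map F) s' := by
  refine val_strict (fun c hc => ?_) (List.mem_map.2 ⟨i, List.mem_range.2 hi, rfl⟩) h1 h2
  obtain ⟨j, hj, rfl⟩ := List.mem_map.1 hc
  exact h j (List.mem_range.1 hj)

theorem seg2_le {F : ℕ → ℕ → Cj}
    (h : ∀ j < t, ∀ w < n, conj s (F j w) = true → conj s' (F j w) = true) :
    val ((List.range t).flatMap fun j => (List.range n).map (F j)) s ≤
      val ((List.range t).flatMap fun j => (List.range n).map (F j)) s' := by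
  refine val_mono fun c hc => ?_
  obtain ⟨j, hj, hc⟩ := List.mem_flatMap.1 hc
  obtain ⟨w, hw, rfl⟩ := List.mem_map.1 hc
  exact h j (List.mem_range.1 hj) w (List.mem_range.1 hw)

theorem seg2_lt {F : ℕ → ℕ → Cj}
    (h : ∀ j < t, ∀ w < n, conj s (F j w) = true → conj s' (F j w) = true) {i w : ℕ}
    (hi : i < t) (hw : w < n) (h1 : conj s (F i w) = false) (h2 : conj s' (F i w) = true) :
    val ((List.range t).flatMap fun j => (List.range n).map (F j)) s <
      val ((List.range t).flatMap fun j => (List.range n).map (F j)) s' := by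
  refine val_strict (fun c hc => ?_) (List.mem_flatMap.2 ⟨i, List.mem_range.2 hi,
    List.mem_map.2 ⟨w, List.mem_range.2 hw, rfl⟩⟩) h1 h2
  obtain ⟨j, hj, hc⟩ := List.mem_flatMap.1 hc
  obtain ⟨w, hw, rfl⟩ := List.mem_map.1 hc
  exact h j (List.mem_range.1 hj) w (List.mem_range.1 hw)

end seg

/-- the bits of the cells; the cell `j` consists of the variables `n + 3 j`, `n + 3 j + 1`,
`n + 3 j + 2` -/
def cells (n t : ℕ) (A : List Bool) (cl : List Cj) : List Cj :=
  ((List.range t).map fun j => [(n + 3 * j, true), (n + 3 * j + 2, false)]) ++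
  (((List.range t).map fun j => [(n + 3 * j, false)]) ++
  (((List.range t).map fun j => [(n + 3 * j + 1, true), (n + 3 * j, true)]) ++
  (((List.range t).map fun j => [(n + 3 * j + 2, true), (n + 3 * j + 1, false)]) ++
  (((List.range t).map fun j => [(n + 3 * j + 2, false)]) ++
  (((List.range t).flatMap fun j => (List.range n).map
    fun w => [(n + 3 * j + 1, true), (w, !(A.getD w false))]) ++
  (((List.range t).map fun j => [(n + 3 * j + 1, false)]) ++
  (((List.range t).flatMap fun j => (List.range n).map
    fun w => [(n + 3 * j, false), (w, !(A.getD w false))]) ++ cl)))))))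

section

variable {n t : ℕ} {A : List Bool} {cl : List Cj} {s s' : List Bool} {i : ℕ}

/-- the first variable of a cell -/
theorem cell_z1 (hi : i < t) (hag : ∀ a, a ≠ n + 3 * i → s.getD a false = s'.getD a false)
    (h1 : s.getD (n + 3 * i) false = true) (h2 : s'.getD (n + 3 * i) false = false)
    (hy : s.getD (n + 3 * i + 2) false = true) :
    val (cells n t A cl) s < val (cells n t A cl) s' := by
  have hy' : s'.getD (n + 3 * i + 2) false = true := by rw [← hag _ (by omega), hy]
  refine le_app (seg_le fun j _ => ?_) (lt_app (seg_lt (fun j _ => ?_) hi ?_ ?_))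
  · by_cases hj : j = i
    · subst hj; rw [conj_two, hy]; simp
    · rw [conj_two, conj_two, hag (n + 3 * j) (by omega), hag (n + 3 * j + 2) (by omega)]; exact id
  · by_cases hj : j = i
    · subst hj; rw [conj_one, h1]; simp
    · rw [conj_one, conj_one, hag (n + 3 * j) (by omega)]; exact id
  · rw [conj_one, h1]; rfl
  · rw [conj_one, h2]; rfl

theorem cell_z0 (hi : i < t) (hag : ∀ a, a ≠ n + 3 * i → s.getD a false = s'.getD a false)
    (h1 : s.getD (n + 3 * i) false = false) (h2 : s'.getD (n + 3 * i) false = true)
    (hy : s.getD (n + 3 * i + 2) false = false) :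
    val (cells n t A cl) s < val (cells n t A cl) s' := by
  have hy' : s'.getD (n + 3 * i + 2) false = false := by rw [← hag _ (by omega), hy]
  refine lt_app (seg_lt (fun j _ => ?_) hi ?_ ?_)
  · by_cases hj : j = i
    · subst hj; rw [conj_two, h1]; simp
    · rw [conj_two, conj_two, hag (n + 3 * j) (by omega), hag (n + 3 * j + 2) (by omega)]; exact id
  · rw [conj_two, h1]; rfl
  · rw [conj_two, h2, hy']; rfl

/-- the second variable of a cell -/
theorem cell_q_z1 (hi : i < t) (hag : ∀ a, a ≠ n + 3 * i + 1 → s.getD a false = s'.getD a false)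
    (h1 : s.getD (n + 3 * i + 1) false = false) (h2 : s'.getD (n + 3 * i + 1) false = true)
    (hz : s.getD (n + 3 * i) false = true) :
    val (cells n t A cl) s < val (cells n t A cl) s' := by
  have hz' : s'.getD (n + 3 * i) false = true := by rw [← hag _ (by omega), hz]
  refine le_app (seg_le fun j _ => ?_) (le_app (seg_le fun j _ => ?_)
    (lt_app (seg_lt (fun j _ => ?_) hi ?_ ?_)))
  · rw [conj_two, conj_two, hag (n + 3 * j) (by omega), hag (n + 3 * j + 2) (by omega)]; exact id
  · rw [conj_one, conj_one, hag (n + 3 * j) (by omega)]; exact id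
  · by_cases hj : j = i
    · subst hj; rw [conj_two, h1]; simp
    · rw [conj_two, conj_two, hag (n + 3 * j) (by omega), hag (n + 3 * j + 1) (by omega)]; exact id
  · rw [conj_two, h1]; rfl
  · rw [conj_two, h2, hz']; rfl

theorem cell_q_A (hi : i < t) (hag : ∀ a, a ≠ n + 3 * i + 1 → s.getD a false = s'.getD a false)
    (h1 : s.getD (n + 3 * i + 1) false = true) (h2 : s'.getD (n + 3 * i + 1) false = false)
    (hz : s.getD (n + 3 * i) false = false) (hA : ∀ w < n, s.getD w false = A.getD w false) :
    val (cells n t A cl) s < val (cells n t A cl) s' := by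
  refine le_app (seg_le fun j _ => ?_) (le_app (seg_le fun j _ => ?_)
    (le_app (seg_le fun j _ => ?_) (le_app (seg_le fun j _ => ?_) (le_app (seg_le fun j _ => ?_)
    (le_app (seg2_le fun j _ w hw => ?_) (lt_app (seg_lt (fun j _ => ?_) hi ?_ ?_)))))))
  · rw [conj_two, conj_two, hag (n + 3 * j) (by omega), hag (n + 3 * j + 2) (by omega)]; exact id
  · rw [conj_one, conj_one, hag (n + 3 * j) (by omega)]; exact id
  · by_cases hj : j = i
    · subst hj; rw [conj_two, hz]; simp
    · rw [conj_two, conj_two, hag (n + 3 * j) (by omega), hag (n + 3 * j + 1) (by omega)]; exact id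
  · by_cases hj : j = i
    · subst hj; rw [conj_two, h1]; simp
    · rw [conj_two, conj_two, hag (n + 3 * j + 2) (by omega), hag (n + 3 * j + 1) (by omega)]
      exact id
  · rw [conj_one, conj_one, hag (n + 3 * j + 2) (by omega)]; exact id
  · rw [conj_two, hA w hw]
    cases A.getD w false <;> simp
  · by_cases hj : j = i
    · subst hj; rw [conj_one, h1]; simp
    · rw [conj_one, conj_one, hag (n + 3 * j + 1) (by omega)]; exact id
  · rw [conj_one, h1]; rfl
  · rw [conj_one, h2]; rfl

theorem cell_q_nA (hi : i < t) (hag : ∀ a, a ≠ n + 3 * i + 1 → s.getD a false = s'.getD a false)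
    (h1 : s.getD (n + 3 * i + 1) false = false) (h2 : s'.getD (n + 3 * i + 1) false = true)
    (hz : s.getD (n + 3 * i) false = false) (hy : s.getD (n + 3 * i + 2) false = false) {w : ℕ}
    (hw : w < n) (hA : s.getD w false ≠ A.getD w false) :
    val (cells n t A cl) s < val (cells n t A cl) s' := by
  refine le_app (seg_le fun j _ => ?_) (le_app (seg_le fun j _ => ?_)
    (le_app (seg_le fun j _ => ?_) (le_app (seg_le fun j _ => ?_) (le_app (seg_le fun j _ => ?_)
    (lt_app (seg2_lt (fun j _ w hw => ?_) hi hw ?_ ?_))))))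
  · rw [conj_two, conj_two, hag (n + 3 * j) (by omega), hag (n + 3 * j + 2) (by omega)]; exact id
  · rw [conj_one, conj_one, hag (n + 3 * j) (by omega)]; exact id
  · by_cases hj : j = i
    · subst hj; rw [conj_two, h1]; simp
    · rw [conj_two, conj_two, hag (n + 3 * j) (by omega), hag (n + 3 * j + 1) (by omega)]; exact id
  · by_cases hj : j = i
    · subst hj; rw [conj_two, hy]; simp
    · rw [conj_two, conj_two, hag (n + 3 * j + 2) (by omega), hag (n + 3 * j + 1) (by omega)]
      exact id
  · rw [conj_one, conj_one, hag (n + 3 * j + 2) (by omega)]; exact id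
  · by_cases hj : j = i
    · subst hj; rw [conj_two, h1]; simp
    · rw [conj_two, conj_two, hag (n + 3 * j + 1) (by omega), hag w (by omega)]; exact id
  · rw [conj_two, h1]; rfl
  · rw [conj_two, h2, ← hag w (by omega)]
    revert hA
    cases s.getD w false <;> cases A.getD w false <;> simp

/-- the third variable of a cell -/
theorem cell_y_q0 (hi : i < t) (hag : ∀ a, a ≠ n + 3 * i + 2 → s.getD a false = s'.getD a false)
    (h1 : s.getD (n + 3 * i + 2) false = false) (h2 : s'.getD (n + 3 * i + 2) false = true)
    (hz : s.getD (n + 3 * i) false = false) (hq : s.getD (n + 3 * i + 1) false = false) :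
    val (cells n t A cl) s < val (cells n t A cl) s' := by
  have hq' : s'.getD (n + 3 * i + 1) false = false := by rw [← hag _ (by omega), hq]
  refine le_app (seg_le fun j _ => ?_) (le_app (seg_le fun j _ => ?_)
    (le_app (seg_le fun j _ => ?_) (lt_app (seg_lt (fun j _ => ?_) hi ?_ ?_))))
  · by_cases hj : j = i
    · subst hj; rw [conj_two, hz]; simp
    · rw [conj_two, conj_two, hag (n + 3 * j) (by omega), hag (n + 3 * j + 2) (by omega)]; exact id
  · rw [conj_one, conj_one, hag (n + 3 * j) (by omega)]; exact id
  · rw [conj_two, conj_two, hag (n + 3 * j) (by omega), hag (n + 3 * j + 1) (by omega)]; exact id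
  · by_cases hj : j = i
    · subst hj; rw [conj_two, h1]; simp
    · rw [conj_two, conj_two, hag (n + 3 * j + 2) (by omega), hag (n + 3 * j + 1) (by omega)]
      exact id
  · rw [conj_two, h1]; rfl
  · rw [conj_two, h2, hq']; rfl

theorem cell_y_q1 (hi : i < t) (hag : ∀ a, a ≠ n + 3 * i + 2 → s.getD a false = s'.getD a false)
    (h1 : s.getD (n + 3 * i + 2) false = true) (h2 : s'.getD (n + 3 * i + 2) false = false)
    (hz : s.getD (n + 3 * i) false = false) (hq : s.getD (n + 3 * i + 1) false = true) :
    val (cells n t A cl) s < val (cells n t A cl) s' := by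
  refine le_app (seg_le fun j _ => ?_) (le_app (seg_le fun j _ => ?_)
    (le_app (seg_le fun j _ => ?_) (le_app (seg_le fun j _ => ?_)
    (lt_app (seg_lt (fun j _ => ?_) hi ?_ ?_)))))
  · by_cases hj : j = i
    · subst hj; rw [conj_two, hz]; simp
    · rw [conj_two, conj_two, hag (n + 3 * j) (by omega), hag (n + 3 * j + 2) (by omega)]; exact id
  · rw [conj_one, conj_one, hag (n + 3 * j) (by omega)]; exact id
  · rw [conj_two, conj_two, hag (n + 3 * j) (by omega), hag (n + 3 * j + 1) (by omega)]; exact id
  · by_cases hj : j = i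
    · subst hj; rw [conj_two, hq]; simp
    · rw [conj_two, conj_two, hag (n + 3 * j + 2) (by omega), hag (n + 3 * j + 1) (by omega)]
      exact id
  · by_cases hj : j = i
    · subst hj; rw [conj_one, h1]; simp
    · rw [conj_one, conj_one, hag (n + 3 * j + 2) (by omega)]; exact id
  · rw [conj_one, h1]; rfl
  · rw [conj_one, h2]; rfl

/-- the old variables while a cell is active -/
theorem cell_w {w : ℕ} (hw : w < n) (hag : ∀ a, a ≠ w → s.getD a false = s'.getD a false)
    (h1 : s.getD w false = A.getD w false) (h2 : s'.getD w false ≠ A.getD w false)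
    (hact : ∃ i < t, s.getD (n + 3 * i) false = false ∨ s.getD (n + 3 * i + 1) false = true) :
    val (cells n t A cl) s < val (cells n t A cl) s' := by
  have hup : ∀ (a v : ℕ) (u : Bool), n ≤ a → v < n →
      conj s [(a, u), (v, !(A.getD v false))] = true →
      conj s' [(a, u), (v, !(A.getD v false))] = true := by
    intro a v u ha hv
    by_cases hvw : v = w
    · subst hvw
      rw [conj_two, h1]
      cases A.getD v false <;> simp
    · rw [conj_two, conj_two, hag a (by omega), hag v hvw]; exact id
  have hf : ∀ (a : ℕ) (u : Bool), conj s [(a, u), (w, !(A.getD w false))] = false := by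
    intro a u
    rw [conj_two, h1]
    cases A.getD w false <;> simp
  have ht : ∀ (a : ℕ) (u : Bool), n ≤ a → s.getD a false = u →
      conj s' [(a, u), (w, !(A.getD w false))] = true := by
    intro a u ha hu
    rw [conj_two, ← hag a (by omega), hu]
    revert h2
    cases s'.getD w false <;> cases A.getD w false <;> simp
  by_cases hq : ∃ i < t, s.getD (n + 3 * i + 1) false = true
  · obtain ⟨i, hi, hq⟩ := hq
    refine le_app (seg_le fun j _ => ?_) (le_app (seg_le fun j _ => ?_)
      (le_app (seg_le fun j _ => ?_) (le_app (seg_le fun j _ => ?_) (le_app (seg_le fun j _ => ?_)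
      (lt_app (seg2_lt (fun j _ v hv => ?_) hi hw ?_ ?_))))))
    · rw [conj_two, conj_two, hag (n + 3 * j) (by omega), hag (n + 3 * j + 2) (by omega)]; exact id
    · rw [conj_one, conj_one, hag (n + 3 * j) (by omega)]; exact id
    · rw [conj_two, conj_two, hag (n + 3 * j) (by omega), hag (n + 3 * j + 1) (by omega)]; exact id
    · rw [conj_two, conj_two, hag (n + 3 * j + 2) (by omega), hag (n + 3 * j + 1) (by omega)]
      exact id
    · rw [conj_one, conj_one, hag (n + 3 * j + 2) (by omega)]; exact id
    · exact hup _ v _ (by omega) hv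
    · exact hf _ _
    · exact ht _ _ (by omega) hq
  · obtain ⟨i, hi, hz⟩ := hact
    have hz : s.getD (n + 3 * i) false = false := by
      rcases hz with hz | hz
      · exact hz
      · exact absurd ⟨i, hi, hz⟩ hq
    refine le_app (seg_le fun j _ => ?_) (le_app (seg_le fun j _ => ?_)
      (le_app (seg_le fun j _ => ?_) (le_app (seg_le fun j _ => ?_) (le_app (seg_le fun j _ => ?_)
      (le_app (seg2_le fun j _ v hv => ?_) (le_app (seg_le fun j _ => ?_)
      (lt_app (seg2_lt (fun j _ v hv => ?_) hi hw ?_ ?_))))))))
    · rw [conj_two, conj_two, hag (n + 3 * j) (by omega), hag (n + 3 * j + 2) (by omega)]; exact id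
    · rw [conj_one, conj_one, hag (n + 3 * j) (by omega)]; exact id
    · rw [conj_two, conj_two, hag (n + 3 * j) (by omega), hag (n + 3 * j + 1) (by omega)]; exact id
    · rw [conj_two, conj_two, hag (n + 3 * j + 2) (by omega), hag (n + 3 * j + 1) (by omega)]
      exact id
    · rw [conj_one, conj_one, hag (n + 3 * j + 2) (by omega)]; exact id
    · exact hup _ v _ (by omega) hv
    · rw [conj_one, conj_one, hag (n + 3 * j + 1) (by omega)]; exact id
    · exact hup _ v _ (by omega) hv
    · exact hf _ _
    · exact ht _ _ (by omega) hz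

theorem val_eq_of {P Q : List Cj} (h1 : val P s = val P s') :
    val (P ++ Q) s < val (P ++ Q) s' ↔ val Q s < val Q s' := by
  rw [val_append_lt, h1]
  simp

/-- the old variables while no cell is active -/
theorem cell_free {w : ℕ} (hw : w < n) (hag : ∀ a, a ≠ w → s.getD a false = s'.getD a false)
    (hina : ∀ i < t, s.getD (n + 3 * i) false = true ∧ s.getD (n + 3 * i + 1) false = false) :
    val (cells n t A cl) s < val (cells n t A cl) s' ↔ val cl s < val cl s' := by
  have hfalse : ∀ (i v : ℕ), i < t →
      conj s [(n + 3 * i + 1, true), (v, !(A.getD v false))] =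
        conj s' [(n + 3 * i + 1, true), (v, !(A.getD v false))] ∧
      conj s [(n + 3 * i, false), (v, !(A.getD v false))] =
        conj s' [(n + 3 * i, false), (v, !(A.getD v false))] := by
    intro i v hi
    obtain ⟨h1, h2⟩ := hina i hi
    have h1' : s'.getD (n + 3 * i) false = true := by rw [← hag _ (by omega), h1]
    have h2' : s'.getD (n + 3 * i + 1) false = false := by rw [← hag _ (by omega), h2]
    rw [conj_two, conj_two, conj_two, conj_two, h1, h2, h1', h2']
    simp
  unfold cells
  rw [val_eq_of, val_eq_of, val_eq_of, val_eq_of, val_eq_of, val_eq_of, val_eq_of, val_eq_of]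
  · refine val_congr fun c hc => ?_
    obtain ⟨j, hj, hc⟩ := List.mem_flatMap.1 hc
    obtain ⟨v, _, rfl⟩ := List.mem_map.1 hc
    exact (hfalse j v (List.mem_range.1 hj)).2
  · refine val_congr fun c hc => ?_
    obtain ⟨j, _, rfl⟩ := List.mem_map.1 hc
    rw [conj_one, conj_one, hag (n + 3 * j + 1) (by omega)]
  · refine val_congr fun c hc => ?_
    obtain ⟨j, hj, hc⟩ := List.mem_flatMap.1 hc
    obtain ⟨v, _, rfl⟩ := List.mem_map.1 hc
    exact (hfalse j v (List.mem_range.1 hj)).1
  · refine val_congr fun c hc => ?_
    obtain ⟨j, _, rfl⟩ := List.mem_map.1 hc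
    rw [conj_one, conj_one, hag (n + 3 * j + 2) (by omega)]
  · refine val_congr fun c hc => ?_
    obtain ⟨j, _, rfl⟩ := List.mem_map.1 hc
    rw [conj_two, conj_two, hag (n + 3 * j + 2) (by omega), hag (n + 3 * j + 1) (by omega)]
  · refine val_congr fun c hc => ?_
    obtain ⟨j, _, rfl⟩ := List.mem_map.1 hc
    rw [conj_two, conj_two, hag (n + 3 * j) (by omega), hag (n + 3 * j + 1) (by omega)]
  · refine val_congr fun c hc => ?_
    obtain ⟨j, _, rfl⟩ := List.mem_map.1 hc
    rw [conj_one, conj_one, hag (n + 3 * j) (by omega)]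
  · refine val_congr fun c hc => ?_
    obtain ⟨j, _, rfl⟩ := List.mem_map.1 hc
    rw [conj_two, conj_two, hag (n + 3 * j) (by omega), hag (n + 3 * j + 2) (by omega)]

end

end Pool.Agent.Helper80K6
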