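import Pool.Agent.Helper80K6.Basic

/-!
# The recursive construction
-/

namespace Pool.Agent.Helper80K6

open Pool.Agent.NPC Pool.Agent.Helper80K4

/-- a map (the bits `cl`, the most significant one first) with a start `A`, an end `B`, a set `R`
of vectors and a lower bound `r` for the number of steps -/
structure Land where
  n : ℕ
  cl : List Cj
  A : List Bool
  B : List Bool
  R : List Bool → Prop
  r : List Bool → ℕ

/-- the properties -/
structure Land.Ok (M : Land) : Prop where
  size : ∀ c ∈ M.cl, c.length ≤ 2
  vars : ∀ c ∈ M.cl, ∀ p ∈ c, p.1 < M.n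
  len : ∀ x, M.R x → x.length = M.n
  RA : M.R M.A
  RB : M.R M.B
  rB : M.r M.B = 0
  step : ∀ x i, M.R x → i < M.n → val M.cl (x.modify i not) < val M.cl x →
    M.R (x.modify i not) ∧ M.r x ≤ M.r (x.modify i not) + 1
  stop : ∀ x, M.R x → (∀ i < M.n, ¬ val M.cl (x.modify i not) < val M.cl x) → x = M.B
  minB : ∀ i < M.n, ¬ val M.cl (M.B.modify i not) < val M.cl M.B

/-- the bits which depend on the seven new variables only, the most significant ones -/
def mem0 : List Cj :=
  [[(2, true), (1, false)], [(6, true), (5, false)], [(2, false)], [(6, false)],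
    [(0, true), (2, true)], [(4, true), (6, true)], [(1, true), (0, false)],
    [(5, true), (4, false)], [(1, false)], [(5, false)], [(3, true), (0, true)],
    [(4, true), (3, false)], [(3, true), (6, true)], [(3, true), (2, false)]]

/-- the list of the states of the new variables -/
def SS : List (List Bool) :=
  [[false, false, false, false, false, false, false],
    [true, false, false, false, false, false, false],
    [true, true, false, false, false, false, false],
    [true, true, true, false, false, false, false],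
    [false, true, true, false, false, false, false],
    [false, true, true, true, false, false, false],
    [false, true, true, true, true, false, false],
    [false, true, true, true, true, true, false],
    [false, true, true, true, true, true, true],
    [false, true, true, true, false, true, true],
    [false, true, true, false, false, true, true]]

/-- a state of the new variables -/
def S (k : ℕ) : List Bool := SS.getD k []

theorem S_len : ∀ k < 11, (S k).length = 7 := by decide

theorem S_inj : ∀ k < 11, ∀ l < 11, S k = S l → k = l := by decide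

theorem tab1a : ∀ k < 11, ∀ j < 7, val mem0 ((S k).modify j not) < val mem0 (S k) →
    (S k).modify j not = S (k + 1) := by decide +kernel

theorem tab1b : ∀ k < 11, ∀ j < 7, val mem0 ((S k).modify j not) < val mem0 (S k) →
    k ∉ [0, 4, 5, 10] := by decide +kernel

theorem tab2a : ∀ k < 11, ∀ j < 7, val mem0 ((S k).modify j not) = val mem0 (S k) →
    10 * k + j ∈ [0, 10, 43, 53, 54, 64] := by decide +kernel

theorem tab3a : ∀ k < 11, k ∉ [0, 4, 5, 10] → ∃ j < 7,
    val mem0 ((S k).modify j not) < val mem0 (S k) := by decide +kernel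

theorem tab1 (k : ℕ) (hk : k < 11) (j : ℕ) (hj : j < 7)
    (h : val mem0 ((S k).modify j not) < val mem0 (S k)) :
    (S k).modify j not = S (k + 1) ∧ k ≠ 0 ∧ k ≠ 4 ∧ k ≠ 5 ∧ k ≠ 10 := by
  have := tab1b k hk j hj h
  simp only [List.mem_cons, List.not_mem_nil, or_false, not_or] at this
  exact ⟨tab1a k hk j hj h, this⟩

theorem tab2 (k : ℕ) (hk : k < 11) (j : ℕ) (hj : j < 7)
    (h : val mem0 ((S k).modify j not) = val mem0 (S k)) :
    (k = 0 ∧ j = 0) ∨ (k = 1 ∧ j = 0) ∨ (k = 4 ∧ j = 3) ∨ (k = 5 ∧ j = 3) ∨ (k = 5 ∧ j = 4) ∨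
      (k = 6 ∧ j = 4) := by
  have := tab2a k hk j hj h
  simp only [List.mem_cons, List.not_mem_nil, or_false] at this
  omega

theorem tab3 (k : ℕ) (hk : k < 11) (h0 : k ≠ 0) (h4 : k ≠ 4) (h5 : k ≠ 5) (h10 : k ≠ 10) :
    ∃ j < 7, val mem0 ((S k).modify j not) < val mem0 (S k) := by
  refine tab3a k hk ?_
  simp only [List.mem_cons, List.not_mem_nil, or_false, not_or]
  exact ⟨h0, h4, h5, h10⟩

/-- the number `d` if `b` is true, otherwise `0` -/
def g (b : Bool) (d : ℕ) : ℕ := if b = true then d else 0

namespace Land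

variable (M : Land)

/-- the allowed pairs -/
def Q (W m : List Bool) : Prop :=
  (m = S 0 ∧ M.R W) ∨ ((m = S 1 ∨ m = S 2 ∨ m = S 3 ∨ m = S 4) ∧ W = M.B) ∨ m = S 5 ∨
    ((m = S 6 ∨ m = S 7 ∨ m = S 8 ∨ m = S 9) ∧ W = M.A) ∨ (m = S 10 ∧ M.R W)

/-- the next map -/
def next : Land where
  n := M.n + 7
  cl := mem0.map (shift M.n) ++ (lk M.n true M.n M.B ++ (lk (M.n + 4) true M.n M.A ++
    ([(M.n + 3, false)] :: (lk (M.n + 3) true M.n M.A ++
      ([(M.n, false)] :: [(M.n + 4, false)] :: M.cl)))))
  A := M.A ++ S 0
  B := M.B ++ S 10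
  R x := ∃ W m, x = W ++ m ∧ W.length = M.n ∧ M.Q W m
  r x := if x.drop M.n = S 0 then M.r (x.take M.n) + M.r M.A else
    if x.drop M.n = S 10 then M.r (x.take M.n) else M.r M.A

end Land

section

variable {M : Land}

theorem Q_len {W m : List Bool} (h : M.Q W m) : m.length = 7 := by
  rcases h with ⟨rfl, _⟩ | ⟨rfl | rfl | rfl | rfl, _⟩ | rfl | ⟨rfl | rfl | rfl | rfl, _⟩ | ⟨rfl, _⟩ <;>
    exact S_len _ (by omega)

theorem next_lt (hM : M.Ok) {W W' m m' : List Bool} (hW : W.length = M.n) (hW' : W'.length = M.n) :
    val M.next.cl (W' ++ m') < val M.next.cl (W ++ m) ↔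
    val mem0 m' < val mem0 m ∨ (val mem0 m' = val mem0 m ∧
    (g (m'.getD 0 false) (dist M.n M.B W') < g (m.getD 0 false) (dist M.n M.B W) ∨
    (g (m'.getD 0 false) (dist M.n M.B W') = g (m.getD 0 false) (dist M.n M.B W) ∧
    (g (m'.getD 4 false) (dist M.n M.A W') < g (m.getD 4 false) (dist M.n M.A W) ∨
    (g (m'.getD 4 false) (dist M.n M.A W') = g (m.getD 4 false) (dist M.n M.A W) ∧
    ((!(m'.getD 3 false)).toNat < (!(m.getD 3 false)).toNat ∨
    (m'.getD 3 false = m.getD 3 false ∧
    (g (m'.getD 3 false) (dist M.n M.A W') < g (m.getD 3 false) (dist M.n M.A W) ∨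
    (g (m'.getD 3 false) (dist M.n M.A W') = g (m.getD 3 false) (dist M.n M.A W) ∧
    ((!(m'.getD 0 false)).toNat < (!(m.getD 0 false)).toNat ∨
    (m'.getD 0 false = m.getD 0 false ∧
    ((!(m'.getD 4 false)).toNat < (!(m.getD 4 false)).toNat ∨
    (m'.getD 4 false = m.getD 4 false ∧ val M.cl W' < val M.cl W))))))))))))) := by
  have hn : ∀ (X m : List Bool) (i : ℕ), X.length = M.n →
      (X ++ m).getD (M.n + i) false = m.getD i false := by
    intro X m i hX
    rw [List.getD_append_right _ _ _ _ (by omega), hX, Nat.add_sub_cancel_left]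
  have hs : ∀ (X m : List Bool), X.length = M.n →
      val (mem0.map (shift M.n)) (X ++ m) = val mem0 m := by
    intro X m hX
    rw [← hX, val_shift]
  have hl : ∀ (X m : List Bool) (i : ℕ) (A : List Bool), X.length = M.n →
      val (lk (M.n + i) true M.n A) (X ++ m) = g (m.getD i false) (dist M.n A X) := by
    intro X m i A hX
    rw [val_lk, hn X m i hX, dist_append hX]
    rfl
  have hc : ∀ (X m : List Bool) (i : ℕ), X.length = M.n →
      conj (X ++ m) [(M.n + i, false)] = !(m.getD i false) := by
    intro X m i hX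
    simp only [conj, List.all_cons, List.all_nil, Bool.and_true]
    rw [hn X m i hX]
    cases m.getD i false <;> rfl
  have hv : ∀ (X m : List Bool), X.length = M.n → val M.cl (X ++ m) = val M.cl X := by
    intro X m hX
    exact val_left fun c hc p hp => by rw [hX]; exact hM.vars c hc p hp
  unfold Land.next
  simp only
  rw [val_append_lt, val_append_lt, val_append_lt, val_cons_lt, val_append_lt, val_cons_lt,
    val_cons_lt]
  have l0 := hl W m 0 M.B hW
  have l0' := hl W' m' 0 M.B hW'
  have c0 := hc W m 0 hW
  have c0' := hc W' m' 0 hW'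
  rw [add_zero] at l0 l0' c0 c0'
  rw [hs W m hW, hs W' m' hW', l0, l0', hl W m 4 M.A hW, hl W' m' 4 M.A hW', hc W m 3 hW,
    hc W' m' 3 hW', hl W m 3 M.A hW, hl W' m' 3 M.A hW', c0, c0', hc W m 4 hW, hc W' m' 4 hW',
    hv W m hW, hv W' m' hW']
  simp only [Bool.not_inj_iff]

/-- a change of an old variable -/
theorem next_lt_left (hM : M.Ok) {W m : List Bool} (hW : W.length = M.n) {i : ℕ} (hi : i < M.n) :
    val M.next.cl ((W ++ m).modify i not) < val M.next.cl (W ++ m) ↔
    (g (m.getD 0 false) (dist M.n M.B (W.modify i not)) < g (m.getD 0 false) (dist M.n M.B W) ∨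
    (g (m.getD 0 false) (dist M.n M.B (W.modify i not)) = g (m.getD 0 false) (dist M.n M.B W) ∧
    (g (m.getD 4 false) (dist M.n M.A (W.modify i not)) < g (m.getD 4 false) (dist M.n M.A W) ∨
    (g (m.getD 4 false) (dist M.n M.A (W.modify i not)) = g (m.getD 4 false) (dist M.n M.A W) ∧
    (g (m.getD 3 false) (dist M.n M.A (W.modify i not)) < g (m.getD 3 false) (dist M.n M.A W) ∨
    (g (m.getD 3 false) (dist M.n M.A (W.modify i not)) = g (m.getD 3 false) (dist M.n M.A W) ∧
      val M.cl (W.modify i not) < val M.cl W)))))) := by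
  rw [modify_append_lt (by omega), next_lt hM hW (by simpa using hW)]
  simp

theorem g_false (d : ℕ) : g false d = 0 := rfl
theorem g_true (d : ℕ) : g true d = d := rfl

theorem left_free (hM : M.Ok) {W m : List Bool} (hW : W.length = M.n) {i : ℕ} (hi : i < M.n)
    (h0 : m.getD 0 false = false) (h3 : m.getD 3 false = false) (h4 : m.getD 4 false = false) :
    val M.next.cl ((W ++ m).modify i not) < val M.next.cl (W ++ m) ↔
      val M.cl (W.modify i not) < val M.cl W := by
  rw [next_lt_left hM hW hi, h0, h3, h4]
  simp [g_false]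

theorem dist_flip_ne {n : ℕ} {A : List Bool} (hA : A.length = n) {i : ℕ} (hi : i < n) :
    dist n A (A.modify i not) ≠ 0 ∧ dist n A A = 0 := by
  refine ⟨fun h => ?_, (dist_eq_zero hA hA).2 rfl⟩
  exact modify_ne (by omega) ((dist_eq_zero hA (by simpa using hA)).1 h)

/-- the variables are locked by `B` -/
theorem left_B (hM : M.Ok) {m : List Bool} {i : ℕ} (hi : i < M.n) (h0 : m.getD 0 false = true) :
    ¬ val M.next.cl ((M.B ++ m).modify i not) < val M.next.cl (M.B ++ m) := by
  have hB := hM.len _ hM.RB
  obtain ⟨h1, h2⟩ := dist_flip_ne hB hi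
  rw [next_lt_left hM hB hi, h0, g_true, g_true, h2]
  rintro (h | ⟨h, _⟩)
  · omega
  · exact h1 h

/-- the variables are locked by `A` -/
theorem left_A (hM : M.Ok) {m : List Bool} {i : ℕ} (hi : i < M.n) (h0 : m.getD 0 false = false)
    (h : m.getD 4 false = true ∨ (m.getD 4 false = false ∧ m.getD 3 false = true)) :
    ¬ val M.next.cl ((M.A ++ m).modify i not) < val M.next.cl (M.A ++ m) := by
  have hA := hM.len _ hM.RA
  obtain ⟨h1, h2⟩ := dist_flip_ne hA hi
  rw [next_lt_left hM hA hi, h0, g_false, g_false]
  rintro (h' | ⟨_, h'⟩)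
  · omega
  · rcases h with h | ⟨h, h3⟩
    · rw [h, g_true, g_true, h2] at h'
      rcases h' with h' | ⟨h', _⟩
      · omega
      · exact h1 h'
    · rw [h, h3, g_false, g_false, g_true, g_true, h2] at h'
      rcases h' with h' | ⟨_, h' | ⟨h', _⟩⟩
      · omega
      · omega
      · exact h1 h'

/-- the possible changes of the new variables -/
theorem right_step (hM : M.Ok) {W : List Bool} (hW : W.length = M.n) {k j : ℕ} (hk : k < 11)
    (hj : j < 7) (hQ : M.Q W (S k))
    (h : val M.next.cl (W ++ (S k).modify j not) < val M.next.cl (W ++ S k)) :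
    (S k).modify j not = S (k + 1) ∧ k ≠ 10 ∧ (k = 0 → W = M.B) ∧ (k = 5 → W = M.A) := by
  have hA := hM.len _ hM.RA
  have hB := hM.len _ hM.RB
  rw [next_lt hM hW hW] at h
  rcases h with h | ⟨h, h'⟩
  · obtain ⟨h1, h2, _, h4, h5⟩ := tab1 k hk j hj h
    exact ⟨h1, h5, fun h => absurd h h2, fun h => absurd h h4⟩
  · rcases tab2 k hk j hj h with ⟨rfl, rfl⟩ | ⟨rfl, rfl⟩ | ⟨rfl, rfl⟩ | ⟨rfl, rfl⟩ | ⟨rfl, rfl⟩ |
      ⟨rfl, rfl⟩
    · refine ⟨rfl, by omega, fun _ => ?_, fun h => absurd h (by omega)⟩
      by_contra hne
      have hd : dist M.n M.B W ≠ 0 := fun h => hne ((dist_eq_zero hB hW).1 h)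
      have e1 : ((S 0).modify 0 not).getD 0 false = true := rfl
      have e2 : (S 0).getD 0 false = false := rfl
      rw [e1, e2, g_true, g_false] at h'
      rcases h' with h' | ⟨h', _⟩
      · omega
      · exact hd h'
    · exfalso
      have hWB : W = M.B := by
        rcases hQ with ⟨h, _⟩ | ⟨_, h⟩ | h | ⟨h, _⟩ | ⟨h, _⟩
        · exact absurd (S_inj 1 (by omega) 0 (by omega) h) (by omega)
        · exact h
        · exact absurd (S_inj 1 (by omega) 5 (by omega) h) (by omega)
        · rcases h with h | h | h | h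
          · exact absurd (S_inj 1 (by omega) 6 (by omega) h) (by omega)
          · exact absurd (S_inj 1 (by omega) 7 (by omega) h) (by omega)
          · exact absurd (S_inj 1 (by omega) 8 (by omega) h) (by omega)
          · exact absurd (S_inj 1 (by omega) 9 (by omega) h) (by omega)
        · exact absurd (S_inj 1 (by omega) 10 (by omega) h) (by omega)
      have hd := (dist_eq_zero hB hW).2 hWB
      have e1 : ((S 1).modify 0 not).getD 0 false = false := rfl
      have e2 : (S 1).getD 0 false = true := rfl
      have e3 : ((S 1).modify 0 not).getD 4 false = false := rfl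
      have e4 : (S 1).getD 4 false = false := rfl
      have e5 : ((S 1).modify 0 not).getD 3 false = false := rfl
      have e6 : (S 1).getD 3 false = false := rfl
      rw [e1, e2, e3, e4, e5, e6, hd] at h'
      simp [g] at h'
    · exact ⟨rfl, by omega, fun h => absurd h (by omega), fun h => absurd h (by omega)⟩
    · exfalso
      have e1 : ((S 5).modify 3 not).getD 0 false = false := rfl
      have e2 : (S 5).getD 0 false = false := rfl
      have e3 : ((S 5).modify 3 not).getD 4 false = false := rfl
      have e4 : (S 5).getD 4 false = false := rfl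
      have e5 : ((S 5).modify 3 not).getD 3 false = false := rfl
      have e6 : (S 5).getD 3 false = true := rfl
      rw [e1, e2, e3, e4, e5, e6] at h'
      simp [g] at h'
    · refine ⟨rfl, by omega, fun h => absurd h (by omega), fun _ => ?_⟩
      by_contra hne
      have hd : dist M.n M.A W ≠ 0 := fun h => hne ((dist_eq_zero hA hW).1 h)
      have e1 : ((S 5).modify 4 not).getD 0 false = false := rfl
      have e2 : (S 5).getD 0 false = false := rfl
      have e3 : ((S 5).modify 4 not).getD 4 false = true := rfl
      have e4 : (S 5).getD 4 false = false := rfl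
      rw [e1, e2, e3, e4, g_true, g_false, g_false] at h'
      rcases h' with h' | ⟨_, h' | ⟨h', _⟩⟩
      · omega
      · omega
      · exact hd h'
    · exfalso
      have hWA : W = M.A := by
        rcases hQ with ⟨h, _⟩ | ⟨h, _⟩ | h | ⟨_, h⟩ | ⟨h, _⟩
        · exact absurd (S_inj 6 (by omega) 0 (by omega) h) (by omega)
        · rcases h with h | h | h | h
          · exact absurd (S_inj 6 (by omega) 1 (by omega) h) (by omega)
          · exact absurd (S_inj 6 (by omega) 2 (by omega) h) (by omega)
          · exact absurd (S_inj 6 (by omega) 3 (by omega) h) (by omega)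
          · exact absurd (S_inj 6 (by omega) 4 (by omega) h) (by omega)
        · exact absurd (S_inj 6 (by omega) 5 (by omega) h) (by omega)
        · exact h
        · exact absurd (S_inj 6 (by omega) 10 (by omega) h) (by omega)
      have hd := (dist_eq_zero hA hW).2 hWA
      have e1 : ((S 6).modify 4 not).getD 0 false = false := rfl
      have e2 : (S 6).getD 0 false = false := rfl
      have e3 : ((S 6).modify 4 not).getD 4 false = false := rfl
      have e4 : (S 6).getD 4 false = true := rfl
      have e5 : ((S 6).modify 4 not).getD 3 false = true := rfl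
      have e6 : (S 6).getD 3 false = true := rfl
      rw [e1, e2, e3, e4, e5, e6, hd] at h'
      simp [g] at h'

end

end Pool.Agent.Helper80K6
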