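import Pool.Agent.Helper80K6.Land

/-!
# The recursive construction: all improving paths are long
-/

namespace Pool.Agent.Helper80K6

open Pool.Agent.NPC Pool.Agent.Helper80K4

variable {M : Land}

theorem next_r {W m : List Bool} (hW : W.length = M.n) :
    M.next.r (W ++ m) = if m = S 0 then M.r W + M.r M.A else if m = S 10 then M.r W else
      M.r M.A := by
  have e1 : (W ++ m).drop M.n = m := by rw [← hW, List.drop_left]
  have e2 : (W ++ m).take M.n = W := by rw [← hW, List.take_left]
  unfold Land.next
  simp only
  rw [e1, e2]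

theorem S_ne {k l : ℕ} (hk : k < 11) (hl : l < 11) (h : k ≠ l) : S k ≠ S l := fun h' =>
  h (S_inj k hk l hl h')

/-- the state of the new variables is in the list -/
theorem Q_cases {W m : List Bool} (h : M.Q W m) : ∃ k < 11, m = S k := by
  rcases h with ⟨rfl, _⟩ | ⟨rfl | rfl | rfl | rfl, _⟩ | rfl | ⟨rfl | rfl | rfl | rfl, _⟩ | ⟨rfl, _⟩ <;>
    exact ⟨_, by omega, rfl⟩

theorem Q_B {W : List Bool} {k : ℕ} (h1 : 1 ≤ k) (h4 : k ≤ 4) (h : M.Q W (S k)) : W = M.B := by
  rcases h with ⟨h, _⟩ | ⟨_, h⟩ | h | ⟨h, _⟩ | ⟨h, _⟩
  · exact absurd h (S_ne (by omega) (by omega) (by omega))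
  · exact h
  · exact absurd h (S_ne (by omega) (by omega) (by omega))
  · rcases h with h | h | h | h <;> exact absurd h (S_ne (by omega) (by omega) (by omega))
  · exact absurd h (S_ne (by omega) (by omega) (by omega))

theorem Q_A {W : List Bool} {k : ℕ} (h1 : 6 ≤ k) (h4 : k ≤ 9) (h : M.Q W (S k)) : W = M.A := by
  rcases h with ⟨h, _⟩ | ⟨h, _⟩ | h | ⟨_, h⟩ | ⟨h, _⟩
  · exact absurd h (S_ne (by omega) (by omega) (by omega))
  · rcases h with h | h | h | h <;> exact absurd h (S_ne (by omega) (by omega) (by omega))
  · exact absurd h (S_ne (by omega) (by omega) (by omega))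
  · exact h
  · exact absurd h (S_ne (by omega) (by omega) (by omega))

theorem Q_R {W : List Bool} {k : ℕ} (h1 : k = 0 ∨ k = 10) (h : M.Q W (S k)) : M.R W := by
  rcases h with ⟨_, h⟩ | ⟨h, _⟩ | h | ⟨h, _⟩ | ⟨_, h⟩
  · exact h
  · rcases h with h | h | h | h <;> exact absurd h (S_ne (by omega) (by omega) (by omega))
  · exact absurd h (S_ne (by omega) (by omega) (by omega))
  · rcases h with h | h | h | h <;> exact absurd h (S_ne (by omega) (by omega) (by omega))
  · exact h

theorem Q_mk {W : List Bool} {k : ℕ} (hk : k < 11) (h0 : k = 0 ∨ k = 10 → M.R W)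
    (hB : 1 ≤ k → k ≤ 4 → W = M.B) (hA : 6 ≤ k → k ≤ 9 → W = M.A) : M.Q W (S k) := by
  have : k = 0 ∨ k = 1 ∨ k = 2 ∨ k = 3 ∨ k = 4 ∨ k = 5 ∨ k = 6 ∨ k = 7 ∨ k = 8 ∨ k = 9 ∨
    k = 10 := by omega
  unfold Land.Q
  rcases this with rfl | rfl | rfl | rfl | rfl | rfl | rfl | rfl | rfl | rfl | rfl
  · exact Or.inl ⟨rfl, h0 (Or.inl rfl)⟩
  · exact Or.inr (Or.inl ⟨Or.inl rfl, hB (by omega) (by omega)⟩)
  · exact Or.inr (Or.inl ⟨Or.inr (Or.inl rfl), hB (by omega) (by omega)⟩)
  · exact Or.inr (Or.inl ⟨Or.inr (Or.inr (Or.inl rfl)), hB (by omega) (by omega)⟩)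
  · exact Or.inr (Or.inl ⟨Or.inr (Or.inr (Or.inr rfl)), hB (by omega) (by omega)⟩)
  · exact Or.inr (Or.inr (Or.inl rfl))
  · exact Or.inr (Or.inr (Or.inr (Or.inl ⟨Or.inl rfl, hA (by omega) (by omega)⟩)))
  · exact Or.inr (Or.inr (Or.inr (Or.inl ⟨Or.inr (Or.inl rfl), hA (by omega) (by omega)⟩)))
  · exact Or.inr (Or.inr (Or.inr (Or.inl ⟨Or.inr (Or.inr (Or.inl rfl)), hA (by omega) (by omega)⟩)))
  · exact Or.inr (Or.inr (Or.inr (Or.inl ⟨Or.inr (Or.inr (Or.inr rfl)), hA (by omega) (by omega)⟩)))
  · exact Or.inr (Or.inr (Or.inr (Or.inr ⟨rfl, h0 (Or.inr rfl)⟩)))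

theorem next_rk {W : List Bool} (hW : W.length = M.n) {k : ℕ} (hk : k < 11) :
    M.next.r (W ++ S k) = if k = 0 then M.r W + M.r M.A else if k = 10 then M.r W else
      M.r M.A := by
  rw [next_r hW]
  by_cases h0 : k = 0
  · rw [h0, if_pos rfl, if_pos rfl]
  · rw [if_neg (S_ne hk (by omega) h0), if_neg h0]
    by_cases h1 : k = 10
    · rw [h1, if_pos rfl, if_pos rfl]
    · rw [if_neg (S_ne hk (by omega) h1), if_neg h1]

theorem S_bits : (∀ k < 11, k = 0 ∨ k = 4 ∨ k = 10 → (S k).getD 0 false = false ∧
      (S k).getD 3 false = false ∧ (S k).getD 4 false = false) ∧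
    (∀ k < 11, 1 ≤ k ∧ k ≤ 3 → (S k).getD 0 false = true) ∧
    (∀ k < 11, 5 ≤ k → (S k).getD 0 false = false) ∧
    (∀ k < 11, 6 ≤ k ∧ k ≤ 8 → (S k).getD 4 false = true) := by
  decide +kernel

theorem next_ok (hM : M.Ok) : M.next.Ok := by
  have hA := hM.len _ hM.RA
  have hB := hM.len _ hM.RB
  obtain ⟨b1, b2, b3, b4⟩ := S_bits
  have hright : ∀ (W : List Bool) (k i : ℕ), W.length = M.n → k < 11 → M.n ≤ i → i < M.n + 7 →
      M.Q W (S k) → val M.next.cl ((W ++ S k).modify i not) < val M.next.cl (W ++ S k) →
      (W ++ S k).modify i not = W ++ S (k + 1) ∧ k ≠ 10 ∧ (k = 0 → W = M.B) ∧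
        (k = 5 → W = M.A) := by
    intro W k i hW hk h1 h2 hQ h
    rw [modify_append_ge (by omega), hW] at h ⊢
    obtain ⟨h3, h4, h5, h6⟩ := right_step hM hW hk (show i - M.n < 7 by omega) hQ h
    exact ⟨by rw [h3], h4, h5, h6⟩
  have hflip : ∀ (W : List Bool) (k j : ℕ), W.length = M.n → k < 11 → j < 7 →
      (∀ i < M.next.n, ¬ val M.next.cl ((W ++ S k).modify i not) < val M.next.cl (W ++ S k)) →
      ¬ val M.next.cl (W ++ (S k).modify j not) < val M.next.cl (W ++ S k) := by
    intro W k j hW hk hj h
    have := h (M.n + j) (show M.n + j < M.n + 7 by omega)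
    rwa [modify_append_ge (by omega), hW, Nat.add_sub_cancel_left] at this
  constructor
  · -- size
    intro c hc
    unfold Land.next at hc
    simp only [List.mem_append, List.mem_cons] at hc
    rcases hc with h | h | h | rfl | h | rfl | rfl | h
    · obtain ⟨c, h', rfl⟩ := List.mem_map.1 h
      unfold shift
      rw [List.length_map]
      have : ∀ c ∈ mem0, c.length ≤ 2 := by decide
      exact this c h'
    · obtain ⟨c, _, rfl⟩ := List.mem_map.1 h
      simp
    · obtain ⟨c, _, rfl⟩ := List.mem_map.1 h
      simp
    · simp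
    · obtain ⟨c, _, rfl⟩ := List.mem_map.1 h
      simp
    · simp
    · simp
    · exact hM.size c h
  · -- vars
    intro c hc p hp
    change p.1 < M.n + 7
    unfold Land.next at hc
    simp only [List.mem_append, List.mem_cons] at hc
    have hlk : ∀ v A, v < 7 → c ∈ lk (M.n + v) true M.n A → p.1 < M.n + 7 := by
      intro v A hv h
      obtain ⟨w, hw, rfl⟩ := List.mem_map.1 h
      have := List.mem_range.1 hw
      simp only [List.mem_cons, List.not_mem_nil, or_false] at hp
      rcases hp with rfl | rfl
      · simp only; omega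
      · simp only; omega
    rcases hc with h | h | h | rfl | h | rfl | rfl | h
    · obtain ⟨c, h', rfl⟩ := List.mem_map.1 h
      unfold shift at hp
      obtain ⟨p, hp', rfl⟩ := List.mem_map.1 hp
      have : ∀ c ∈ mem0, ∀ p ∈ c, p.1 < 7 := by decide
      have := this c h' p hp'
      simp only
      omega
    · exact hlk 0 _ (by omega) h
    · exact hlk 4 _ (by omega) h
    · simp only [List.mem_cons, List.not_mem_nil, or_false] at hp
      rw [hp]; simp only; omega
    · exact hlk 3 _ (by omega) h
    · simp only [List.mem_cons, List.not_mem_nil, or_false] at hp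
      rw [hp]; simp only; omega
    · simp only [List.mem_cons, List.not_mem_nil, or_false] at hp
      rw [hp]; simp only; omega
    · have := hM.vars c h p hp
      omega
  · -- length
    rintro x ⟨W, m, rfl, hW, hQ⟩
    have := Q_len hQ
    change _ = M.n + 7
    rw [List.length_append]
    omega
  · exact ⟨M.A, S 0, rfl, hA, Q_mk (by omega) (fun _ => hM.RA) (by omega) (by omega)⟩
  · exact ⟨M.B, S 10, rfl, hB, Q_mk (by omega) (fun _ => hM.RB) (by omega) (by omega)⟩
  · change M.next.r (M.B ++ S 10) = 0
    rw [next_rk hB (by omega), if_neg (by omega), if_pos rfl]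
    exact hM.rB
  · -- steps
    rintro x i ⟨W, m, rfl, hW, hQ⟩ hi h
    obtain ⟨k, hk, rfl⟩ := Q_cases hQ
    have hi : i < M.n + 7 := hi
    by_cases hin : i < M.n
    · have hWl : (W.modify i not).length = M.n := by simpa using hW
      have e := modify_append_lt (W := W) (m := S k) (i := i) (by omega)
      by_cases hk0 : k = 0 ∨ k = 10
      · have hf := b1 k hk (by omega)
        rw [left_free hM hW hin hf.1 hf.2.1 hf.2.2] at h
        have hR := Q_R hk0 hQ
        obtain ⟨h1, h2⟩ := hM.step W i hR hin h
        rw [e, next_rk hW hk, next_rk hWl hk]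
        refine ⟨⟨_, _, rfl, hWl, Q_mk hk (fun _ => h1) (by omega) (by omega)⟩, ?_⟩
        rcases hk0 with rfl | rfl
        · rw [if_pos rfl, if_pos rfl]; omega
        · rw [if_neg (by omega), if_pos rfl, if_neg (by omega), if_pos rfl]; omega
      · by_cases hk1 : k ≤ 4
        · exfalso
          have hWB := Q_B (by omega) hk1 hQ
          by_cases hk4 : k = 4
          · have hf := b1 k hk (by omega)
            rw [left_free hM hW hin hf.1 hf.2.1 hf.2.2, hWB] at h
            exact hM.minB i hin h
          · rw [hWB] at h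
            exact left_B hM hin (b2 k hk (by omega)) h
        · by_cases hk5 : k = 5
          · rw [e, next_rk hW hk, next_rk hWl hk]
            refine ⟨⟨_, _, rfl, hWl, Q_mk hk (by omega) (by omega) (by omega)⟩, ?_⟩
            rw [if_neg (by omega), if_neg (by omega), if_neg (by omega), if_neg (by omega)]
            omega
          · exfalso
            have hWA := Q_A (by omega) (by omega) hQ
            rw [hWA] at h
            refine left_A hM hin (b3 k hk (by omega)) ?_ h
            by_cases hk9 : k = 9
            · right; rw [hk9]; exact ⟨rfl, rfl⟩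
            · left; exact b4 k hk (by omega)
    · obtain ⟨h1, h2, h3, h4⟩ := hright W k i hW hk (by omega) hi hQ h
      rw [h1, next_rk hW hk, next_rk hW (by omega)]
      have h9 : k = 9 → W = M.A := fun h => Q_A (by omega) (by omega) hQ
      refine ⟨⟨_, _, rfl, hW, Q_mk (by omega) ?_ ?_ ?_⟩, ?_⟩
      · intro h
        rw [h9 (by omega)]
        exact hM.RA
      · intro h5 h6
        by_cases hk0 : k = 0
        · exact h3 hk0
        · exact Q_B (by omega) (by omega) hQ
      · intro h5 h6
        by_cases hk0 : k = 5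
        · exact h4 hk0
        · exact Q_A (by omega) (by omega) hQ
      · by_cases hk0 : k = 0
        · rw [if_pos hk0, if_neg (by omega), if_neg (by omega), h3 hk0, hM.rB]
          omega
        · rw [if_neg hk0, if_neg h2, if_neg (by omega)]
          by_cases hk9 : k = 9
          · rw [if_pos (by omega), h9 hk9]
            omega
          · rw [if_neg (by omega)]
            omega
  · -- end
    rintro x ⟨W, m, rfl, hW, hQ⟩ h
    obtain ⟨k, hk, rfl⟩ := Q_cases hQ
    -- if the old variables are free and may not be changed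
    have hfree : k = 0 ∨ k = 10 → W = M.B := by
      intro hk0
      have hf := b1 k hk (by omega)
      refine hM.stop W (Q_R hk0 hQ) fun i hi h' => ?_
      refine h i (show i < M.n + 7 by omega) ?_
      rwa [left_free hM hW hi hf.1 hf.2.1 hf.2.2]
    by_cases h10 : k = 10
    · rw [h10, hfree (Or.inr h10)]
      rfl
    exfalso
    by_cases h0 : k = 0
    · subst h0
      have hWB := hfree (Or.inl rfl)
      refine hflip W 0 0 hW hk (by omega) h ?_
      rw [next_lt hM hW hW]
      have e1 : ((S 0).modify 0 not).getD 0 false = true := rfl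
      have e2 : (S 0).getD 0 false = false := rfl
      have e3 : ((S 0).modify 0 not).getD 4 false = false := rfl
      have e4 : (S 0).getD 4 false = false := rfl
      have e5 : ((S 0).modify 0 not).getD 3 false = false := rfl
      have e6 : (S 0).getD 3 false = false := rfl
      have e7 : val mem0 ((S 0).modify 0 not) = val mem0 (S 0) := by decide +kernel
      rw [e1, e2, e3, e4, e5, e6, e7, hWB, (dist_eq_zero hB hB).2 rfl]
      simp [g]
    by_cases h4 : k = 4
    · subst h4
      refine hflip W 4 3 hW hk (by omega) h ?_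
      rw [next_lt hM hW hW]
      have e1 : ((S 4).modify 3 not).getD 0 false = false := rfl
      have e2 : (S 4).getD 0 false = false := rfl
      have e3 : ((S 4).modify 3 not).getD 4 false = false := rfl
      have e4 : (S 4).getD 4 false = false := rfl
      have e5 : ((S 4).modify 3 not).getD 3 false = true := rfl
      have e6 : (S 4).getD 3 false = false := rfl
      have e7 : val mem0 ((S 4).modify 3 not) = val mem0 (S 4) := by decide +kernel
      rw [e1, e2, e3, e4, e5, e6, e7]
      simp [g]
    by_cases h5 : k = 5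
    · subst h5
      by_cases hWA : W = M.A
      · refine hflip W 5 4 hW hk (by omega) h ?_
        rw [next_lt hM hW hW]
        have e1 : ((S 5).modify 4 not).getD 0 false = false := rfl
        have e2 : (S 5).getD 0 false = false := rfl
        have e3 : ((S 5).modify 4 not).getD 4 false = true := rfl
        have e4 : (S 5).getD 4 false = false := rfl
        have e5 : ((S 5).modify 4 not).getD 3 false = true := rfl
        have e6 : (S 5).getD 3 false = true := rfl
        have e7 : val mem0 ((S 5).modify 4 not) = val mem0 (S 5) := by decide +kernel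
        rw [e1, e2, e3, e4, e5, e6, e7, hWA, (dist_eq_zero hA hA).2 rfl]
        simp [g]
      · obtain ⟨i, hi, hne⟩ := exists_wrong hA hW hWA
        refine h i (show i < M.n + 7 by omega) ?_
        rw [next_lt_left hM hW hi]
        have e2 : (S 5).getD 0 false = false := rfl
        have e4 : (S 5).getD 4 false = false := rfl
        have e6 : (S 5).getD 3 false = true := rfl
        rw [e2, e4, e6]
        exact Or.inr ⟨rfl, Or.inr ⟨rfl, Or.inl (dist_lt hi hW hne)⟩⟩
    obtain ⟨j, hj, hlt⟩ := tab3 k hk h0 h4 h5 h10
    refine hflip W k j hW hk hj h ?_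
    rw [next_lt hM hW hW]
    exact Or.inl hlt
  · -- the end is a local minimum
    intro i hi
    have hi : i < M.n + 7 := hi
    have hQ : M.Q M.B (S 10) := Q_mk (by omega) (fun _ => hM.RB) (by omega) (by omega)
    change ¬ val M.next.cl ((M.B ++ S 10).modify i not) < val M.next.cl (M.B ++ S 10)
    by_cases hin : i < M.n
    · have hf := b1 10 (by omega) (by omega)
      rw [left_free hM hB hin hf.1 hf.2.1 hf.2.2]
      exact hM.minB i hin
    · intro h
      exact (hright M.B 10 i hB (by omega) (by omega) hi hQ h).2.1 rfl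

/-- the first map -/
def land0 : Land where
  n := 1
  cl := [[(0, false)]]
  A := [false]
  B := [true]
  R x := x.length = 1
  r x := if x.getD 0 false = true then 0 else 1

theorem land0_ok : land0.Ok := by
  have hx : ∀ x : List Bool, x.length = 1 → x = [false] ∨ x = [true] := by
    intro x hx
    obtain ⟨b, rfl⟩ := List.length_eq_one_iff.1 hx
    cases b
    · exact Or.inl rfl
    · exact Or.inr rfl
  refine ⟨by decide, by decide, fun x h => h, rfl, rfl, rfl, ?_, ?_, by decide⟩
  · intro x i hR hi _
    refine ⟨by simpa [land0] using hR, ?_⟩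
    have h1 : land0.r x ≤ 1 := by
      unfold land0
      simp only
      split_ifs <;> omega
    omega
  · intro x hR h
    rcases hx x hR with rfl | rfl
    · exfalso
      exact h 0 (by decide) (by decide)
    · rfl

/-- the maps -/
def land : ℕ → Land
  | 0 => land0
  | k + 1 => (land k).next

theorem land_ok (k : ℕ) : (land k).Ok := by
  induction k with
  | zero => exact land0_ok
  | succ k ih => exact next_ok ih

theorem land_n (k : ℕ) : (land k).n = 7 * k + 1 := by
  induction k with
  | zero => rfl
  | succ k ih =>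
    change (land k).n + 7 = _
    rw [ih]; ring

theorem land_A (k : ℕ) : (land k).A = List.replicate (7 * k + 1) false := by
  induction k with
  | zero => rfl
  | succ k ih =>
    change (land k).A ++ S 0 = _
    rw [ih]
    change _ ++ List.replicate 7 false = _
    rw [List.replicate_append_replicate]
    congr 1

theorem land_r (k : ℕ) : (land k).r (land k).A = 2 ^ k := by
  induction k with
  | zero => rfl
  | succ k ih =>
    change (land k).next.r ((land k).A ++ S 0) = _
    rw [next_rk ((land_ok k).len _ (land_ok k).RA) (by omega), if_pos rfl, ih]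
    ring

theorem land_cl (k : ℕ) : 2 * (land k).cl.length = 21 * k ^ 2 + 19 * k + 2 := by
  induction k with
  | zero => rfl
  | succ k ih =>
    have e : (land (k + 1)).cl.length = 17 + 3 * (land k).n + (land k).cl.length := by
      change (land k).next.cl.length = _
      unfold Land.next
      simp only [List.length_append, List.length_map, List.length_cons, lk, List.length_range]
      have : mem0.length = 14 := rfl
      omega
    rw [e, land_n]
    nlinarith

end Pool.Agent.Helper80K6
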