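import Pool.Agent.Helper80K6.Path

/-!
# The number of vectors with a short improving path
-/

namespace Pool.Agent.Helper80K6

open Pool.Agent.NPC Pool.Agent.Helper80K4

theorem ofFn_getD {N : ℕ} (x : Fin N → Bool) {a : ℕ} (ha : a < N) :
    (List.ofFn x).getD a false = x ⟨a, ha⟩ := by
  rw [List.getD_eq_getElem _ _ (by simpa using ha), List.getElem_ofFn]

theorem count (n t : ℕ) (P : (Fin (n + 3 * t) → Bool) → Prop)
    (hP : ∀ x, P x → ¬ ∃ i < t, (List.ofFn x).getD (n + 3 * i) false = false ∧
      (List.ofFn x).getD (n + 3 * i + 1) false = false ∧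
      (List.ofFn x).getD (n + 3 * i + 2) false = false) :
    Nat.card {x // P x} ≤ 2 ^ n * 7 ^ t := by
  classical
  have hcard : Nat.card ((Fin n → Bool) × (Fin t → {p : Bool × Bool × Bool //
      p ≠ (false, false, false)})) = 2 ^ n * 7 ^ t := by
    rw [Nat.card_eq_fintype_card, Fintype.card_prod, Fintype.card_fun, Fintype.card_fun,
      Fintype.card_bool, Fintype.card_fin, Fintype.card_fin]
    congr 2
  rw [← hcard]
  have hne : ∀ x, P x → ∀ j : Fin t, (x ⟨n + 3 * j, by omega⟩, x ⟨n + 3 * j + 1, by omega⟩,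
      x ⟨n + 3 * j + 2, by omega⟩) ≠ (false, false, false) := by
    intro x hx j h
    simp only [Prod.mk.injEq] at h
    refine hP x hx ⟨j, j.2, ?_, ?_, ?_⟩
    · rw [ofFn_getD x (by omega)]; exact h.1
    · rw [ofFn_getD x (by omega)]; exact h.2.1
    · rw [ofFn_getD x (by omega)]; exact h.2.2
  refine Nat.card_le_card_of_injective (fun x : {x // P x} =>
    ((fun i : Fin n => x.1 ⟨i, by omega⟩), fun j : Fin t =>
      (⟨(x.1 ⟨n + 3 * j, by omega⟩, x.1 ⟨n + 3 * j + 1, by omega⟩,
        x.1 ⟨n + 3 * j + 2, by omega⟩), hne x.1 x.2 j⟩ :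
        {p : Bool × Bool × Bool // p ≠ (false, false, false)}))) ?_
  rintro ⟨x, hx⟩ ⟨y, hy⟩ h
  simp only [Prod.mk.injEq] at h
  obtain ⟨h1, h2⟩ := h
  refine Subtype.ext (funext fun a => ?_)
  simp only
  obtain ⟨a, ha⟩ := a
  by_cases han : a < n
  · exact congrFun h1 ⟨a, han⟩
  · have h3 := congrFun h2 ⟨(a - n) / 3, by omega⟩
    simp only [Subtype.mk.injEq, Prod.mk.injEq] at h3
    obtain ⟨h4, h5, h6⟩ := h3
    have : a = n + 3 * ((a - n) / 3) ∨ a = n + 3 * ((a - n) / 3) + 1 ∨
        a = n + 3 * ((a - n) / 3) + 2 := by omega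
    rcases this with e | e | e
    · have e' : (⟨a, ha⟩ : Fin (n + 3 * t)) = ⟨n + 3 * ((a - n) / 3), by omega⟩ := Fin.ext e
      rw [e']; exact h4
    · have e' : (⟨a, ha⟩ : Fin (n + 3 * t)) = ⟨n + 3 * ((a - n) / 3) + 1, by omega⟩ := Fin.ext e
      rw [e']; exact h5
    · have e' : (⟨a, ha⟩ : Fin (n + 3 * t)) = ⟨n + 3 * ((a - n) / 3) + 2, by omega⟩ := Fin.ext e
      rw [e']; exact h6

/-! ### Locality one -/

theorem local_diff {M : LocalMap} (hM : LocalMap.Valid 1 M) {x y : List Bool} {j : ℕ}
    (hx : j < x.length) (hy : j < y.length) (h : x.getD j false = y.getD j false) :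
    (cost (M.eval (x.modify j not)) : ℤ) - cost (M.eval x) =
      (cost (M.eval (y.modify j not)) : ℤ) - cost (M.eval y) := by
  have e : ∀ z : List Bool, (cost (M.eval z) : ℤ) = ∑ o ∈ Finset.range M.outs.length,
      ((Bit.eval z (M.outs.getD o ([], []))).toNat : ℤ) * 2 ^ (o + 1) := by
    intro z
    unfold cost LocalMap.eval
    rw [List.length_map]
    push_cast
    refine Finset.sum_congr rfl fun o ho => ?_
    have ho := Finset.mem_range.1 ho
    rw [List.getD_eq_getElem _ _ (by simpa using ho), List.getElem_map,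
      List.getD_eq_getElem _ _ ho]
  rw [e, e, e, e, ← Finset.sum_sub_distrib, ← Finset.sum_sub_distrib]
  refine Finset.sum_congr rfl fun o ho => ?_
  have ho := Finset.mem_range.1 ho
  rw [← sub_mul, ← sub_mul]
  congr 1
  obtain ⟨T, hT⟩ : ∃ T, T = M.outs.getD o ([], []) := ⟨_, rfl⟩
  have hmem : T ∈ M.outs := by
    rw [hT, List.getD_eq_getElem _ _ ho]
    exact List.getElem_mem _
  obtain ⟨h1, _, _⟩ := hM T hmem
  rw [← hT]
  unfold Bit.eval
  rcases hT1 : T.1 with _ | ⟨a, l⟩
  · simp
  · have hl : l = [] := by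
      rw [hT1, List.length_cons] at h1
      exact List.eq_nil_of_length_eq_zero (by omega)
    subst hl
    simp only [List.map_cons, List.map_nil]
    rw [getD_modify hx, getD_modify hy]
    by_cases ha : a = j
    · subst ha
      rw [if_pos rfl, if_pos rfl, h]
    · rw [if_neg ha, if_neg ha]
      simp

theorem local_one {M : LocalMap} (hM : LocalMap.Valid 1 M) (s : ℕ) (f : ℕ → List Bool)
    (h0 : (f 0).length = M.inputs)
    (hstep : ∀ j < s, Improves M.inputs M.eval (f j) (f (j + 1))) : s ≤ M.inputs := by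
  classical
  obtain ⟨I, hI⟩ : ∃ I : List Bool → Finset ℕ, I = fun x => (Finset.range M.inputs).filter
    fun i => cost (M.eval (x.modify i not)) < cost (M.eval x) := ⟨_, rfl⟩
  have key : ∀ j ≤ s, (f j).length = M.inputs ∧ (I (f j)).card + j ≤ M.inputs := by
    intro j
    induction j with
    | zero =>
      intro _
      refine ⟨h0, ?_⟩
      rw [hI]
      exact (Finset.card_filter_le _ _).trans (le_of_eq (Finset.card_range _))
    | succ j ih =>
      intro hj
      obtain ⟨hl, hc⟩ := ih (by omega)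
      obtain ⟨i, hi, e, hlt⟩ := hstep j (by omega)
      have hl' : (f (j + 1)).length = M.inputs := by rw [e]; simpa using hl
      refine ⟨hl', ?_⟩
      have hiI : i ∈ I (f j) := by
        rw [hI]
        simp only [Finset.mem_filter, Finset.mem_range]
        exact ⟨hi, by rw [← e]; exact hlt⟩
      have hsub : I (f (j + 1)) ⊆ (I (f j)).erase i := by
        intro a ha
        rw [hI] at ha
        simp only [Finset.mem_filter, Finset.mem_range] at ha
        obtain ⟨ha1, ha2⟩ := ha
        have hai : a ≠ i := by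
          rintro rfl
          have e2 : (f (j + 1)).modify a not = f j := by
            rw [e]
            refine List.ext_getElem? fun b => ?_
            rw [List.getElem?_modify, List.getElem?_modify]
            by_cases hb : a = b
            · cases (f j)[b]? <;> simp [hb]
            · simp [hb]
          rw [e2] at ha2
          omega
        refine Finset.mem_erase.2 ⟨hai, ?_⟩
        rw [hI]
        simp only [Finset.mem_filter, Finset.mem_range]
        refine ⟨ha1, ?_⟩
        have h3 := local_diff hM (x := f (j + 1)) (y := f j) (j := a) (by omega) (by omega) (by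
          rw [e, getD_modify (by omega), if_neg hai])
        omega
      have h1 := Finset.card_le_card hsub
      rw [Finset.card_erase_of_mem hiI] at h1
      have h2 : 0 < (I (f j)).card := Finset.card_pos.2 ⟨i, hiI⟩
      omega
  have := key s le_rfl
  omega

theorem main (k t : ℕ) : ∃ M : ConjMap, M.inputs = 7 * k + 1 + 3 * t ∧ M.Valid 2 ∧
    M.outs.length ≤ M.inputs ^ 2 ∧
    ¬ Short M.inputs M.eval (2 ^ k) (List.replicate M.inputs false) ∧
    8 ^ t * Nat.card {x : Fin M.inputs → Bool // Short M.inputs M.eval (2 ^ k) (List.ofFn x)} ≤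
      7 ^ t * 2 ^ M.inputs := by
  refine ⟨bigMap k t, rfl, bigMap_valid k t, bigMap_len k t, zero_long k t, ?_⟩
  have h := count (7 * k + 1) t
    (fun x => Short (bigMap k t).inputs (bigMap k t).eval (2 ^ k) (List.ofFn x)) (by
      intro x hx hw
      exact wit_long k t (by rw [List.length_ofFn]; rfl) hw hx)
  have e : 8 ^ t * (2 ^ (7 * k + 1) * 7 ^ t) = 7 ^ t * 2 ^ (7 * k + 1 + 3 * t) := by
    rw [show (8 : ℕ) = 2 ^ 3 by norm_num, ← pow_mul, pow_add]
    ring
  calc 8 ^ t * Nat.card {x : Fin (bigMap k t).inputs → Bool //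
        Short (bigMap k t).inputs (bigMap k t).eval (2 ^ k) (List.ofFn x)}
      ≤ 8 ^ t * (2 ^ (7 * k + 1) * 7 ^ t) := Nat.mul_le_mul_left _ h
    _ = _ := e

end Pool.Agent.Helper80K6
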