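import Pool.Agent.Helper80K6.Init

/-!
# Improving paths from almost all vectors are long
-/

namespace Pool.Agent.Helper80K6

open Pool.Agent.NPC Pool.Agent.Helper80K4

section

variable (M : Land) (t : ℕ)

/-- some cell is in the state 000 -/
def Wit (x : List Bool) : Prop := ∃ i < t, x.getD (M.n + 3 * i) false = false ∧
  x.getD (M.n + 3 * i + 1) false = false ∧ x.getD (M.n + 3 * i + 2) false = false

/-- no cell is active -/
def Inact (x : List Bool) : Prop := ∀ i < t, x.getD (M.n + 3 * i) false = true ∧
  x.getD (M.n + 3 * i + 1) false = false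

/-- the invariant -/
def Inv (x : List Bool) : Prop := x.length = M.n + 3 * t ∧
  (x.take M.n = M.A ∨ (Inact M t x ∧ M.R (x.take M.n)) ∨ Wit M t x)

open Classical in
/-- the lower bound for the number of steps -/
noncomputable def rho (x : List Bool) : ℕ :=
  if Wit M t x then M.r M.A else min (M.r (x.take M.n)) (M.r M.A)

end

variable {M : Land} {t : ℕ}

theorem rho_le (x : List Bool) : rho M t x ≤ M.r M.A := by
  unfold rho
  split_ifs
  · exact le_rfl
  · exact min_le_right _ _

theorem rho_A {x : List Bool} (h : x.take M.n = M.A) : rho M t x = M.r M.A := by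
  unfold rho
  split_ifs
  · rfl
  · rw [h, min_self]

theorem rho_wit {x : List Bool} (h : Wit M t x) : rho M t x = M.r M.A := by
  unfold rho
  rw [if_pos h]

theorem not_wit {x : List Bool} (h : Inact M t x) : ¬ Wit M t x := by
  rintro ⟨i, hi, h1, _⟩
  rw [(h i hi).1] at h1
  exact absurd h1 (by simp)

theorem val_take (hM : M.Ok) {x : List Bool} (hx : M.n ≤ x.length) :
    val M.cl x = val M.cl (x.take M.n) := by
  conv_lhs => rw [← List.take_append_drop M.n x]
  refine val_left fun c hc p hp => ?_
  have := hM.vars c hc p hp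
  rw [List.length_take]
  omega

theorem take_modify_lt {x : List Bool} {n i : ℕ} (_ : i < n) :
    (x.modify i not).take n = (x.take n).modify i not := by
  refine List.ext_getElem? fun j => ?_
  by_cases hj : j < n
  · rw [List.getElem?_take_of_lt hj, List.getElem?_modify, List.getElem?_modify,
      List.getElem?_take_of_lt hj]
  · rw [List.getElem?_eq_none (by simp; omega), List.getElem?_eq_none (by simp; omega)]

theorem take_modify_ge {x : List Bool} {n i : ℕ} (h : n ≤ i) :
    (x.modify i not).take n = x.take n := by
  refine List.ext_getElem? fun j => ?_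
  by_cases hj : j < n
  · rw [List.getElem?_take_of_lt hj, List.getElem?_take_of_lt hj, List.getElem?_modify]
    simp [show i ≠ j by omega]
  · rw [List.getElem?_eq_none (by simp; omega), List.getElem?_eq_none (by simp; omega)]

theorem getD_take {x : List Bool} {n w : ℕ} (hw : w < n) :
    (x.take n).getD w false = x.getD w false := by
  rw [List.getD_eq_getElem?_getD, List.getElem?_take_of_lt hw, ← List.getD_eq_getElem?_getD]

theorem inv_step (hM : M.Ok) {x : List Bool} (hx : Inv M t x) {v : ℕ} (hv : v < M.n + 3 * t)
    (h : val (cells M.n t M.A M.cl) (x.modify v not) < val (cells M.n t M.A M.cl) x) :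
    Inv M t (x.modify v not) ∧ rho M t x ≤ rho M t (x.modify v not) + 1 := by
  obtain ⟨hl, hI⟩ := hx
  have hA := hM.len _ hM.RA
  have hvx : v < x.length := by omega
  obtain ⟨y, hy⟩ : ∃ y, y = x.modify v not := ⟨_, rfl⟩
  have hyl : y.length = M.n + 3 * t := by rw [hy]; simpa using hl
  have hag : ∀ a, a ≠ v → x.getD a false = y.getD a false := by
    intro a ha
    rw [hy, getD_modify hvx, if_neg ha]
  have hyv : y.getD v false = !(x.getD v false) := by rw [hy, getD_modify hvx, if_pos rfl]
  have hcon : ¬ val (cells M.n t M.A M.cl) x < val (cells M.n t M.A M.cl) y := by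
    rw [hy]; omega
  have hwitL : ∀ z, rho M t z ≤ M.r M.A + 1 := fun z => (rho_le z).trans (by omega)
  by_cases hvn : v < M.n
  · have htake : y.take M.n = (x.take M.n).modify v not := by rw [hy, take_modify_lt hvn]
    by_cases hact : ∃ i < t, x.getD (M.n + 3 * i) false = false ∨
        x.getD (M.n + 3 * i + 1) false = true
    · -- some cell is active
      have hne : x.getD v false ≠ M.A.getD v false := by
        intro he
        exact hcon (cell_w hvn hag he (by
          rw [hyv, he]
          cases M.A.getD v false <;> simp) hact)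
      rw [← hy]
      rcases hI with hI | ⟨hI, _⟩ | ⟨i, hi, h1, h2, h3⟩
      · exfalso
        apply hne
        rw [← hI, getD_take hvn]
      · exfalso
        obtain ⟨i, hi, h1⟩ := hact
        obtain ⟨h2, h3⟩ := hI i hi
        rw [h2, h3] at h1
        simp at h1
      · have hw : Wit M t y := ⟨i, hi, by rw [← hag _ (by omega), h1],
          by rw [← hag _ (by omega), h2], by rw [← hag _ (by omega), h3]⟩
        refine ⟨⟨hyl, Or.inr (Or.inr hw)⟩, ?_⟩
        rw [rho_wit hw]
        exact hwitL x
    · have hin : Inact M t x := by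
        intro i hi
        push Not at hact
        obtain ⟨h1, h2⟩ := hact i hi
        exact ⟨by simpa using h1, by simpa using h2⟩
      have hin' : Inact M t y := by
        intro i hi
        obtain ⟨h1, h2⟩ := hin i hi
        exact ⟨by rw [← hag _ (by omega), h1], by rw [← hag _ (by omega), h2]⟩
      have hR : M.R (x.take M.n) := by
        rcases hI with hI | ⟨_, hI⟩ | hI
        · rw [hI]; exact hM.RA
        · exact hI
        · exact absurd hI (not_wit hin)
      rw [← hy, cell_free hvn (fun a ha => (hag a ha).symm) hin', val_take hM (by omega),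
        val_take hM (x := x) (by omega), htake] at h
      obtain ⟨h1, h2⟩ := hM.step _ v hR hvn h
      rw [← hy]
      rw [← htake] at h1 h2
      refine ⟨⟨hyl, Or.inr (Or.inl ⟨hin', h1⟩)⟩, ?_⟩
      unfold rho
      rw [if_neg (not_wit hin), if_neg (not_wit hin')]
      omega
  · have htake : y.take M.n = x.take M.n := by rw [hy, take_modify_ge (by omega)]
    rw [← hy]
    by_cases hWA : x.take M.n = M.A
    · refine ⟨⟨hyl, Or.inl (by rw [htake, hWA])⟩, ?_⟩
      rw [rho_A (x := y) (by rw [htake, hWA])]
      exact hwitL x
    obtain ⟨i, hi, hvi⟩ : ∃ i < t, v = M.n + 3 * i ∨ v = M.n + 3 * i + 1 ∨ v = M.n + 3 * i + 2 :=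
      ⟨(v - M.n) / 3, by omega, by omega⟩
    rcases hI with hI | ⟨hin, hR⟩ | ⟨j, hj, h1, h2, h3⟩
    · exact absurd hI hWA
    · -- no cell is active
      obtain ⟨hz, hq⟩ := hin i hi
      rcases hvi with rfl | rfl | rfl
      · have hy0 : x.getD (M.n + 3 * i + 2) false = false := by
          by_contra hne
          have h5 : x.getD (M.n + 3 * i + 2) false = true := by simpa using hne
          exact hcon (cell_z1 hi hag hz (by rw [hyv, hz]; rfl) h5)
        have hw : Wit M t y := ⟨i, hi, by rw [hyv, hz]; rfl, by rw [← hag _ (by omega), hq],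
          by rw [← hag _ (by omega), hy0]⟩
        refine ⟨⟨hyl, Or.inr (Or.inr hw)⟩, ?_⟩
        rw [rho_wit hw]
        exact hwitL x
      · exact absurd (cell_q_z1 hi hag hq (by rw [hyv, hq]; rfl) hz) hcon
      · have hin' : Inact M t y := by
          intro i hi
          obtain ⟨h1, h2⟩ := hin i hi
          exact ⟨by rw [← hag _ (by omega), h1], by rw [← hag _ (by omega), h2]⟩
        refine ⟨⟨hyl, Or.inr (Or.inl ⟨hin', by rw [htake]; exact hR⟩)⟩, ?_⟩
        unfold rho
        rw [if_neg (not_wit hin), if_neg (not_wit hin'), htake]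
        omega
    · -- a witness
      have hw : Wit M t y := by
        by_cases hij : i = j
        · subst hij
          exfalso
          rcases hvi with rfl | rfl | rfl
          · exact hcon (cell_z0 hi hag h1 (by rw [hyv, h1]; rfl) h3)
          · obtain ⟨w, hw, hne⟩ := exists_wrong (W := x.take M.n) hA
              (by rw [List.length_take]; omega) hWA
            rw [getD_take hw] at hne
            exact hcon (cell_q_nA hi hag h2 (by rw [hyv, h2]; rfl) h1 h3 hw hne)
          · exact hcon (cell_y_q0 hi hag h3 (by rw [hyv, h3]; rfl) h1 h2)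
        · exact ⟨j, hj, by rw [← hag _ (by omega), h1], by rw [← hag _ (by omega), h2],
            by rw [← hag _ (by omega), h3]⟩
      refine ⟨⟨hyl, Or.inr (Or.inr hw)⟩, ?_⟩
      rw [rho_wit hw]
      exact hwitL x

theorem inv_end (hM : M.Ok) {x : List Bool} (hx : Inv M t x)
    (h : ∀ v < M.n + 3 * t, ¬ val (cells M.n t M.A M.cl) (x.modify v not) <
      val (cells M.n t M.A M.cl) x) : rho M t x = 0 := by
  obtain ⟨hl, hI⟩ := hx
  have hA := hM.len _ hM.RA
  have hag : ∀ v < M.n + 3 * t, ∀ a, a ≠ v → (x.modify v not).getD a false = x.getD a false := by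
    intro v hv a ha
    rw [getD_modify (by omega), if_neg ha]
  have hyv : ∀ v < M.n + 3 * t, (x.modify v not).getD v false = !(x.getD v false) := by
    intro v hv
    rw [getD_modify (by omega), if_pos rfl]
  have hz : ∀ i < t, x.getD (M.n + 3 * i) false = true := by
    intro i hi
    by_contra hne
    have hz : x.getD (M.n + 3 * i) false = false := by simpa using hne
    by_cases hWA : x.take M.n = M.A
    · have hWA' : ∀ w < M.n, x.getD w false = M.A.getD w false := by
        intro w hw
        rw [← hWA, getD_take hw]
      cases hq : x.getD (M.n + 3 * i + 1) false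
      · have hv : M.n + 3 * i + 1 < M.n + 3 * t := by omega
        refine h _ hv (cell_q_A hi (hag _ hv) (by rw [hyv _ hv, hq]; rfl) hq ?_ fun w hw => ?_)
        · rw [hag _ hv _ (by omega), hz]
        · rw [hag _ hv _ (by omega), hWA' w hw]
      · cases hy : x.getD (M.n + 3 * i + 2) false
        · have hv : M.n + 3 * i + 2 < M.n + 3 * t := by omega
          refine h _ hv (cell_y_q1 hi (hag _ hv) (by rw [hyv _ hv, hy]; rfl) hy ?_ ?_)
          · rw [hag _ hv _ (by omega), hz]
          · rw [hag _ hv _ (by omega), hq]
        · have hv : M.n + 3 * i < M.n + 3 * t := by omega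
          refine h _ hv (cell_z1 hi (hag _ hv) (by rw [hyv _ hv, hz]; rfl) hz ?_)
          rw [hag _ hv _ (by omega), hy]
    · obtain ⟨w, hw, hne⟩ := exists_wrong (W := x.take M.n) hA
        (by rw [List.length_take]; omega) hWA
      rw [getD_take hw] at hne
      have hv : w < M.n + 3 * t := by omega
      refine h _ hv (cell_w hw (hag _ hv) ?_ hne ⟨i, hi, Or.inl ?_⟩)
      · rw [hyv _ hv]
        revert hne
        cases x.getD w false <;> cases M.A.getD w false <;> simp
      · rw [hag _ hv _ (by omega), hz]
  have hin : Inact M t x := by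
    intro i hi
    refine ⟨hz i hi, ?_⟩
    by_contra hne
    have hq : x.getD (M.n + 3 * i + 1) false = true := by simpa using hne
    have hv : M.n + 3 * i + 1 < M.n + 3 * t := by omega
    refine h _ hv (cell_q_z1 hi (hag _ hv) (by rw [hyv _ hv, hq]; rfl) hq ?_)
    rw [hag _ hv _ (by omega), hz i hi]
  have hR : M.R (x.take M.n) := by
    rcases hI with hI | ⟨_, hI⟩ | hI
    · rw [hI]; exact hM.RA
    · exact hI
    · exact absurd hI (not_wit hin)
  have hW := hM.stop _ hR fun i hi h' => by
    have hv : i < M.n + 3 * t := by omega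
    refine h i hv ?_
    have hin' : Inact M t (x.modify i not) := by
      intro j hj
      obtain ⟨h1, h2⟩ := hin j hj
      exact ⟨by rw [hag _ hv _ (by omega), h1], by rw [hag _ hv _ (by omega), h2]⟩
    rw [cell_free hi (hag _ hv) hin', val_take hM (by simp; omega), val_take hM (x := x) (by omega),
      take_modify_lt hi]
    exact h'
  unfold rho
  rw [if_neg (not_wit hin), hW, hM.rB]
  simp

/-! ### The map -/

/-- the map -/
def bigMap (k t : ℕ) : ConjMap :=
  ⟨7 * k + 1 + 3 * t, (cells (land k).n t (land k).A (land k).cl).reverse⟩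

theorem bigMap_cost (k t : ℕ) (x : List Bool) :
    cost ((bigMap k t).eval x) = 2 * val (cells (land k).n t (land k).A (land k).cl) x := by
  unfold bigMap ConjMap.eval val
  simp only
  rw [List.map_reverse, cost_reverse]

theorem not_short (k t : ℕ) {x : List Bool} (hx : Inv (land k) t x)
    (hr : rho (land k) t x = 2 ^ k) :
    ¬ Short (bigMap k t).inputs (bigMap k t).eval (2 ^ k) x := by
  rintro ⟨s, f, hs, h0, hstep, hmin⟩
  have hM := land_ok k
  have hn : (bigMap k t).inputs = (land k).n + 3 * t := by
    rw [land_n]
    rfl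
  have key : ∀ j ≤ s, Inv (land k) t (f j) ∧ 2 ^ k ≤ rho (land k) t (f j) + j := by
    intro j
    induction j with
    | zero =>
      intro _
      rw [h0, hr]
      exact ⟨hx, le_rfl⟩
    | succ j ih =>
      intro hj
      obtain ⟨h1, h2⟩ := ih (by omega)
      obtain ⟨i, hi, e, hc⟩ := hstep j (by omega)
      rw [bigMap_cost, bigMap_cost, e] at hc
      rw [hn] at hi
      obtain ⟨h3, h4⟩ := inv_step hM h1 hi (by omega)
      rw [e]
      exact ⟨h3, by omega⟩
  obtain ⟨h1, h2⟩ := key s le_rfl
  have h3 := inv_end hM h1 fun v hv hlt => by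
    have := hmin.2 v (by rw [hn]; exact hv)
    rw [bigMap_cost, bigMap_cost] at this
    omega
  omega

/-- the zero vector -/
theorem zero_long (k t : ℕ) :
    ¬ Short (bigMap k t).inputs (bigMap k t).eval (2 ^ k)
      (List.replicate (bigMap k t).inputs false) := by
  have e : (List.replicate (bigMap k t).inputs false).take (land k).n = (land k).A := by
    rw [List.take_replicate, land_A, land_n]
    congr 1
    change min (7 * k + 1) (7 * k + 1 + 3 * t) = _
    omega
  refine not_short k t ⟨?_, Or.inl e⟩ ?_
  · rw [List.length_replicate, land_n]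
    rfl
  · rw [rho_A e, land_r]

/-- vectors with a witness -/
theorem wit_long (k t : ℕ) {x : List Bool} (hl : x.length = (bigMap k t).inputs)
    (hx : ∃ i < t, x.getD (7 * k + 1 + 3 * i) false = false ∧
      x.getD (7 * k + 1 + 3 * i + 1) false = false ∧
      x.getD (7 * k + 1 + 3 * i + 2) false = false) :
    ¬ Short (bigMap k t).inputs (bigMap k t).eval (2 ^ k) x := by
  have hw : Wit (land k) t x := by
    unfold Wit
    rw [land_n]
    exact hx
  refine not_short k t ⟨?_, Or.inr (Or.inr hw)⟩ ?_
  · rw [hl, land_n]
    rfl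
  · rw [rho_wit hw, land_r]

theorem bigMap_valid (k t : ℕ) : ConjMap.Valid 2 (bigMap k t) := by
  have hM := land_ok k
  have hn : (bigMap k t).inputs = (land k).n + 3 * t := by
    rw [land_n]
    rfl
  intro c hc
  rw [hn]
  have hc : c ∈ cells (land k).n t (land k).A (land k).cl := List.mem_reverse.1 hc
  unfold cells at hc
  simp only [List.mem_append] at hc
  have key1 : ∀ {F : ℕ → Cj}, c ∈ (List.range t).map F → (∀ j < t, (F j).length ≤ 2 ∧
      ∀ p ∈ F j, p.1 < (land k).n + 3 * t) → c.length ≤ 2 ∧ ∀ p ∈ c, p.1 < (land k).n + 3 * t := by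
    intro F h hF
    obtain ⟨j, hj, rfl⟩ := List.mem_map.1 h
    exact hF j (List.mem_range.1 hj)
  have key2 : ∀ {F : ℕ → ℕ → Cj}, c ∈ ((List.range t).flatMap fun j =>
      (List.range (land k).n).map (F j)) → (∀ j < t, ∀ w < (land k).n, (F j w).length ≤ 2 ∧
      ∀ p ∈ F j w, p.1 < (land k).n + 3 * t) →
      c.length ≤ 2 ∧ ∀ p ∈ c, p.1 < (land k).n + 3 * t := by
    intro F h hF
    obtain ⟨j, hj, h⟩ := List.mem_flatMap.1 h
    obtain ⟨w, hw, rfl⟩ := List.mem_map.1 h
    exact hF j (List.mem_range.1 hj) w (List.mem_range.1 hw)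
  rcases hc with h | h | h | h | h | h | h | h | h
  · refine key1 h fun j hj => ⟨by simp, fun p hp => ?_⟩
    simp only [List.mem_cons, List.not_mem_nil, or_false] at hp
    rcases hp with rfl | rfl <;> simp only <;> omega
  · refine key1 h fun j hj => ⟨by simp, fun p hp => ?_⟩
    simp only [List.mem_cons, List.not_mem_nil, or_false] at hp
    rw [hp]; simp only; omega
  · refine key1 h fun j hj => ⟨by simp, fun p hp => ?_⟩
    simp only [List.mem_cons, List.not_mem_nil, or_false] at hp
    rcases hp with rfl | rfl <;> simp only <;> omega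
  · refine key1 h fun j hj => ⟨by simp, fun p hp => ?_⟩
    simp only [List.mem_cons, List.not_mem_nil, or_false] at hp
    rcases hp with rfl | rfl <;> simp only <;> omega
  · refine key1 h fun j hj => ⟨by simp, fun p hp => ?_⟩
    simp only [List.mem_cons, List.not_mem_nil, or_false] at hp
    rw [hp]; simp only; omega
  · refine key2 h fun j hj w hw => ⟨by simp, fun p hp => ?_⟩
    simp only [List.mem_cons, List.not_mem_nil, or_false] at hp
    rcases hp with rfl | rfl <;> simp only <;> omega
  · refine key1 h fun j hj => ⟨by simp, fun p hp => ?_⟩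
    simp only [List.mem_cons, List.not_mem_nil, or_false] at hp
    rw [hp]; simp only; omega
  · refine key2 h fun j hj w hw => ⟨by simp, fun p hp => ?_⟩
    simp only [List.mem_cons, List.not_mem_nil, or_false] at hp
    rcases hp with rfl | rfl <;> simp only <;> omega
  · exact ⟨hM.size c h, fun p hp => by have := hM.vars c h p hp; omega⟩

theorem bigMap_len (k t : ℕ) : (bigMap k t).outs.length ≤ (bigMap k t).inputs ^ 2 := by
  have h1 := land_cl k
  have h2 : ∀ (t n : ℕ) (F : ℕ → ℕ → Cj), ((List.range t).flatMap fun j =>
      (List.range n).map (F j)).length = t * n := by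
    intro t n F
    rw [List.length_flatMap]
    simp
  have h3 : (bigMap k t).outs.length = 6 * t + 2 * (t * (7 * k + 1)) + (land k).cl.length := by
    unfold bigMap cells
    simp only [List.length_reverse, List.length_append, List.length_map, List.length_range, h2,
      land_n]
    ring
  have h4 : (bigMap k t).inputs = 7 * k + 1 + 3 * t := rfl
  rw [h3, h4]
  nlinarith [Nat.zero_le (k * t), Nat.zero_le k, Nat.zero_le t, Nat.zero_le (t * t),
    Nat.zero_le (k * k), Nat.le_self_pow (two_ne_zero) t, Nat.le_self_pow (two_ne_zero) k]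

end Pool.Agent.Helper80K6
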